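import Mathlib
set_option autoImplicit false
set_option linter.unusedSectionVars false
set_option linter.unusedVariables false
open Metric Set Filter Topology

namespace Pool.Agent.H456R3.I

variable {E : Type*} [NormedAddCommGroup E] [InnerProductSpace ℝ E] [FiniteDimensional ℝ E]

/-- A bounded set contains no infinite arithmetic progression with nonzero difference. -/
theorem no_chain {S : Set E} (hS : Bornology.IsBounded S) {x d : E} (hd : d ≠ 0)
    (h : ∀ k : ℕ, x + (k : ℝ) • d ∈ S) : False := by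
  obtain ⟨R, hR⟩ := hS.exists_norm_le
  obtain ⟨k, hk⟩ := exists_nat_gt ((R + ‖x‖) / ‖d‖)
  have h1 := hR _ (h k)
  have hd' : 0 < ‖d‖ := norm_pos_iff.2 hd
  rw [div_lt_iff₀ hd'] at hk
  have h2 : ‖(k : ℝ) • d‖ ≤ ‖x + (k : ℝ) • d‖ + ‖x‖ := by
    have := norm_sub_le (x + (k : ℝ) • d) x
    rwa [add_sub_cancel_left] at this
  rw [norm_smul, Real.norm_of_nonneg (Nat.cast_nonneg k)] at h2
  linarith

/-- The data of the comparison argument: `D`, `D'` are the local differences of `u`, `v`, and `w` is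
a real lift of `u - v`. -/
structure Data (D D' : E → E → ℝ) (w : E → ℝ) (K : Set E) (ε M η : ℝ) : Prop where
  cpt : IsCompact K
  eps : 0 < ε
  eta : 0 ≤ η
  c1 : ContinuousOn (fun p : E × E => D p.1 p.2) {p | p.1 ∈ K ∧ p.2 ∈ closedBall p.1 ε}
  c1' : ContinuousOn (fun p : E × E => D' p.1 p.2) {p | p.1 ∈ K ∧ p.2 ∈ closedBall p.1 ε}
  c2 : ∀ x ∈ K, ContinuousOn (D x) (closedBall x (2 * ε))
  cw : ContinuousOn w K
  d0 : ∀ x ∈ K, D x x = 0
  d0' : ∀ x ∈ K, D' x x = 0
  co : ∀ x ∈ K, ∀ y ∈ closedBall x ε, ∀ z ∈ closedBall y ε, D x z = D x y + D y z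
  co' : ∀ x ∈ K, ∀ y ∈ closedBall x ε, ∀ z ∈ closedBall y ε, D' x z = D' x y + D' y z
  wd : ∀ x ∈ K, ∀ y ∈ closedBall x ε, w y - w x = D x y - D' x y
  sl : ∀ x ∈ K, ∀ m : ℝ, (∀ z ∈ closedBall x (2 * ε), D x z ≤ m) →
    ∀ y ∈ closedBall x (2 * ε), D x y ≤ m / (2 * ε) * ‖y - x‖
  sl' : ∀ x ∈ K, ∀ m : ℝ, (∀ z ∈ closedBall x (2 * ε), -m ≤ D' x z) →
    ∀ y ∈ closedBall x (2 * ε), -(m / (2 * ε) * ‖y - x‖) ≤ D' x y
  wM : ∀ x ∈ K, w x ≤ M
  wMx : ∃ x ∈ K, w x = M
  be : ∀ x ∈ K, ∀ y ∈ closedBall x ε, |D x y| ≤ η ∧ |D' x y| ≤ η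
  stay : ∀ x ∈ K, M - 2 * η ≤ w x → ∀ y ∈ closedBall x ε, y ∈ K

variable {D D' : E → E → ℝ} {w : E → ℝ} {K : Set E} {ε M η : ℝ}

theorem Data.false [Nontrivial E] (H : Data D D' w K ε M η) : False := by
  obtain ⟨hK, hε, hη, hc1, hc1', hc2, hcw, hd0, hd0', hco, hco', hwd, hsl, hsl', hwM, hwMx, hbe,
    hstay⟩ := H
  -- the sup and the inf
  have ha : ∀ x, ∃ a : ℝ, x ∈ K → (∃ y ∈ closedBall x ε, D x y = a) ∧
      ∀ y ∈ closedBall x ε, D x y ≤ a := by
    intro x
    by_cases hx : x ∈ K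
    · have h1 : ContinuousOn (D x) (closedBall x ε) :=
        (hc2 x hx).mono (closedBall_subset_closedBall (by linarith))
      obtain ⟨y, hy, hy2⟩ := (isCompact_closedBall x ε).exists_isMaxOn
        ⟨x, mem_closedBall_self hε.le⟩ h1
      exact ⟨D x y, fun _ => ⟨⟨y, hy, rfl⟩, fun z hz => hy2 hz⟩⟩
    · exact ⟨0, fun h => absurd h hx⟩
  choose a ha using ha
  have hb : ∀ x, ∃ b : ℝ, x ∈ K → (∃ y ∈ closedBall x ε, D' x y = b) ∧
      ∀ y ∈ closedBall x ε, b ≤ D' x y := by
    intro x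
    by_cases hx : x ∈ K
    · have h1 : ContinuousOn (D' x) (closedBall x ε) := by
        have := hc1'.comp (f := fun y : E => (x, y)) (s := closedBall x ε)
          (by fun_prop) (fun y hy => ⟨hx, hy⟩)
        exact this
      obtain ⟨y, hy, hy2⟩ := (isCompact_closedBall x ε).exists_isMinOn
        ⟨x, mem_closedBall_self hε.le⟩ h1
      exact ⟨D' x y, fun _ => ⟨⟨y, hy, rfl⟩, fun z hz => hy2 hz⟩⟩
    · exact ⟨0, fun h => absurd h hx⟩
  choose b hb using hb
  have ha0 : ∀ x ∈ K, 0 ≤ a x := fun x hx => by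
    have := (ha x hx).2 x (mem_closedBall_self hε.le)
    rwa [hd0 x hx] at this
  have hb0 : ∀ x ∈ K, b x ≤ 0 := fun x hx => by
    have := (hb x hx).2 x (mem_closedBall_self hε.le)
    rwa [hd0' x hx] at this
  have ha1 : ∀ x ∈ K, a x ≤ η := fun x hx => by
    obtain ⟨y, hy, h⟩ := (ha x hx).1
    rw [← h]; exact (le_abs_self _).trans (hbe x hx y hy).1
  have hb1 : ∀ x ∈ K, -η ≤ b x := fun x hx => by
    obtain ⟨y, hy, h⟩ := (hb x hx).1
    rw [← h]; exact (abs_le.1 (hbe x hx y hy).2).1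
  -- the compact set of triples
  set T : Set (E × E × E) := {t | t.1 ∈ K ∧ t.2.1 ∈ closedBall t.1 ε ∧ t.2.2 ∈ closedBall t.1 ε}
    with hT
  have hTc : IsCompact T := by
    have h1 : T = (fun t : E × E × E => (t.1, t.1 + t.2.1, t.1 + t.2.2)) ''
        (K ×ˢ (closedBall 0 ε ×ˢ closedBall 0 ε)) := by
      ext ⟨x, y, z⟩
      simp only [hT, Set.mem_ofPred_eq, Set.mem_image, Set.mem_prod, Prod.exists,
        mem_closedBall, dist_zero_right, Prod.mk.injEq]
      constructor
      · rintro ⟨h1, h2, h3⟩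
        exact ⟨x, y - x, z - x, ⟨h1, by rwa [dist_eq_norm] at h2, by rwa [dist_eq_norm] at h3⟩, rfl,
          by abel, by abel⟩
      · rintro ⟨x', y', z', ⟨h1, h2, h3⟩, rfl, rfl, rfl⟩
        exact ⟨h1, by simpa using h2, by simpa using h3⟩
    rw [h1]
    exact (hK.prod ((isCompact_closedBall _ _).prod (isCompact_closedBall _ _))).image
      (by fun_prop)
  set Φ : E × E × E → ℝ := fun t => w t.1 + D t.1 t.2.1 - D' t.1 t.2.2 with hΦ
  have hcD : ContinuousOn (fun t : E × E × E => D t.1 t.2.1) T :=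
    hc1.comp (f := fun t : E × E × E => (t.1, t.2.1)) (by fun_prop) (fun t ht => ⟨ht.1, ht.2.1⟩)
  have hcD' : ContinuousOn (fun t : E × E × E => D' t.1 t.2.2) T :=
    hc1'.comp (f := fun t : E × E × E => (t.1, t.2.2)) (by fun_prop) (fun t ht => ⟨ht.1, ht.2.2⟩)
  have hΦc : ContinuousOn Φ T :=
    ((hcw.comp continuous_fst.continuousOn (fun t ht => ht.1)).add hcD).sub hcD'
  obtain ⟨xM, hxM, hxM2⟩ := hwMx
  have hTne : T.Nonempty := ⟨(xM, xM, xM), hxM, mem_closedBall_self hε.le, mem_closedBall_self hε.le⟩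
  obtain ⟨tS, htS, htS2⟩ := hTc.exists_isMaxOn hTne hΦc
  set S := Φ tS with hS
  -- W x ≤ S
  have hWle : ∀ x ∈ K, w x + a x - b x ≤ S := by
    intro x hx
    obtain ⟨y, hy, h⟩ := (ha x hx).1
    obtain ⟨z, hz, h'⟩ := (hb x hx).1
    have := htS2 (show (x, y, z) ∈ T from ⟨hx, hy, hz⟩)
    rw [← h, ← h']
    exact this
  have hSM : M ≤ S := by
    have := hWle xM hxM
    have h1 := ha0 xM hxM
    have h2 := hb0 xM hxM
    linarith
  -- second maximisation
  set T2 : Set (E × E × E) := {t ∈ T | Φ t = S} with hT2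
  have hT2c : IsCompact T2 := by
    have : T2 = T ∩ Φ ⁻¹' {S} := by ext t; simp [hT2]
    rw [this]
    exact hTc.of_isClosed_subset
      (hΦc.preimage_isClosed_of_isClosed hTc.isClosed isClosed_singleton) Set.inter_subset_left
  obtain ⟨t0, ht0, ht02⟩ := hT2c.exists_isMaxOn ⟨tS, htS, rfl⟩ (hcD.mono fun t ht => ht.1)
  set s := D t0.1 t0.2.1 with hs
  -- E = points of K with W = S
  set EE : Set E := {x ∈ K | w x + a x - b x = S} with hEE
  have hEb : Bornology.IsBounded EE := hK.isBounded.subset fun x hx => hx.1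
  have hEa : ∀ x ∈ EE, a x ≤ s := by
    intro x hx
    obtain ⟨y, hy, h⟩ := (ha x hx.1).1
    obtain ⟨z, hz, h'⟩ := (hb x hx.1).1
    have h1 : (x, y, z) ∈ T2 := ⟨⟨hx.1, hy, hz⟩, by rw [hΦ]; simp only []; rw [h, h']; exact hx.2⟩
    have := ht02 h1
    rw [← h]
    exact this
  have hx0 : t0.1 ∈ EE ∧ a t0.1 = s := by
    obtain ⟨⟨h1, h2, h3⟩, h4⟩ := ht0
    have h5 := hWle _ h1
    have h6 := (ha _ h1).2 _ h2
    have h7 := (hb _ h1).2 _ h3
    have h8 : w t0.1 + D t0.1 t0.2.1 - D' t0.1 t0.2.2 = S := h4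
    have h9 : w t0.1 + a t0.1 - b t0.1 = S := by linarith
    exact ⟨⟨h1, h9⟩, le_antisymm (hEa _ ⟨h1, h9⟩) h6⟩
  -- points of E have large w
  have hEw : ∀ x ∈ EE, ∀ y ∈ closedBall x ε, y ∈ K := by
    intro x hx
    apply hstay x hx.1
    have h1 := hx.2
    have h2 := ha1 x hx.1
    have h3 := hb1 x hx.1
    linarith
  have hsym : ∀ x ∈ K, ∀ y ∈ closedBall x ε, D y x = - D x y := by
    intro x hx y hy
    have := hco x hx y hy x (by rw [mem_closedBall, dist_comm]; exact hy)
    rw [hd0 x hx] at this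
    linarith
  have hsym' : ∀ x ∈ K, ∀ y ∈ closedBall x ε, D' y x = - D' x y := by
    intro x hx y hy
    have := hco' x hx y hy x (by rw [mem_closedBall, dist_comm]; exact hy)
    rw [hd0' x hx] at this
    linarith
  have hcomm : ∀ x y : E, y ∈ closedBall x ε → x ∈ closedBall y ε := by
    intro x y h; rwa [mem_closedBall, dist_comm]
  -- midpoint decomposition
  have hmid : ∀ x z : E, z ∈ closedBall x (2 * ε) → ∃ y ∈ closedBall x ε, z ∈ closedBall y ε := by
    intro x z hz
    rw [mem_closedBall, dist_eq_norm] at hz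
    refine ⟨x + (1 / 2 : ℝ) • (z - x), ?_, ?_⟩
    · rw [mem_closedBall, dist_eq_norm, add_sub_cancel_left, norm_smul]
      norm_num
      linarith
    · rw [mem_closedBall, dist_eq_norm]
      have : z - (x + (1 / 2 : ℝ) • (z - x)) = (1 / 2 : ℝ) • (z - x) := by module
      rw [this, norm_smul]
      norm_num
      linarith
  -- the inequalities at a point of E
  have hmain : ∀ x ∈ EE, a x = - b x ∧ ∀ y ∈ closedBall x ε,
      - a x ≤ D x y + a y - a x ∧ D x y + a y - a x ≤ D' x y + b y - b x ∧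
      D' x y + b y - b x ≤ a x := by
    intro x hx
    have hxK := hx.1
    have hUV : ∀ y ∈ closedBall x ε, D x y + a y - a x ≤ D' x y + b y - b x := by
      intro y hy
      have h1 := hWle y (hEw x hx y hy)
      have h2 := hwd x hxK y hy
      have h3 := hx.2
      linarith
    have hV : ∀ y ∈ closedBall x ε, D' x y + b y - b x ≤ - b x := by
      intro y hy
      have h1 := (hb y (hEw x hx y hy)).2 x (hcomm _ _ hy)
      rw [hsym' x hxK y hy] at h1
      linarith
    have hU : ∀ y ∈ closedBall x ε, - a x ≤ D x y + a y - a x := by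
      intro y hy
      have h1 := (ha y (hEw x hx y hy)).2 x (hcomm _ _ hy)
      rw [hsym x hxK y hy] at h1
      linarith
    have h1 : ∀ z ∈ closedBall x (2 * ε), D x z ≤ a x - b x := by
      intro z hz
      obtain ⟨y, hy, hz2⟩ := hmid x z hz
      have h2 := hco x hxK y hy z hz2
      have h3 := (ha y (hEw x hx y hy)).2 z hz2
      have h4 := hUV y hy
      have h5 := hV y hy
      linarith
    have h2 : ∀ z ∈ closedBall x (2 * ε), -(a x - b x) ≤ D' x z := by
      intro z hz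
      obtain ⟨y, hy, hz2⟩ := hmid x z hz
      have h2 := hco' x hxK y hy z hz2
      have h3 := (hb y (hEw x hx y hy)).2 z hz2
      have h4 := hUV y hy
      have h5 := hU y hy
      linarith
    have hab0 : 0 ≤ a x - b x := by linarith [ha0 x hxK, hb0 x hxK]
    have hhalf : ∀ y ∈ closedBall x ε, (a x - b x) / (2 * ε) * ‖y - x‖ ≤ (a x - b x) / 2 := by
      intro y hy
      rw [mem_closedBall, dist_eq_norm] at hy
      have : (a x - b x) / 2 = (a x - b x) / (2 * ε) * ε := by field_simp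
      rw [this]
      exact mul_le_mul_of_nonneg_left hy (by positivity)
    have h3 : a x ≤ (a x - b x) / 2 := by
      obtain ⟨y, hy, h⟩ := (ha x hxK).1
      rw [← h]
      have h4 := hsl x hxK _ h1 y (closedBall_subset_closedBall (by linarith) hy)
      have h5 := hhalf y hy
      rw [h] at h4 ⊢
      linarith
    have h4 : - b x ≤ (a x - b x) / 2 := by
      obtain ⟨y, hy, h⟩ := (hb x hxK).1
      have h4 := hsl' x hxK _ h2 y (closedBall_subset_closedBall (by linarith) hy)
      have h5 := hhalf y hy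
      rw [h] at h4
      linarith
    have hab : a x = - b x := by linarith
    refine ⟨hab, fun y hy => ⟨hU y hy, hUV y hy, ?_⟩⟩
    rw [hab]
    exact hV y hy
  -- step: if equality then y ∈ E
  have hstepE : ∀ x ∈ EE, ∀ y ∈ closedBall x ε, D' x y + b y - b x ≤ D x y + a y - a x → y ∈ EE := by
    intro x hx y hy h
    have h1 := hEw x hx y hy
    have h2 := hwd x hx.1 y hy
    have h3 := hx.2
    have h4 := hWle y h1
    exact ⟨h1, by linarith⟩
  have hs0 : 0 ≤ s := by rw [← hx0.2]; exact ha0 _ hx0.1.1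
  rcases hs0.eq_or_lt with hs0 | hs0
  · -- s = 0
    have h1 : ∀ x ∈ EE, ∀ y ∈ closedBall x ε, y ∈ EE := by
      intro x hx y hy
      have h2 : a x = 0 := le_antisymm (hs0 ▸ hEa x hx) (ha0 x hx.1)
      obtain ⟨h3, h4⟩ := hmain x hx
      obtain ⟨h5, h6, h7⟩ := h4 y hy
      exact hstepE x hx y hy (by linarith)
    obtain ⟨e, he⟩ := exists_norm_eq E hε.le
    have he0 : e ≠ 0 := by rw [← norm_pos_iff, he]; exact hε
    refine no_chain hEb (x := t0.1) he0 fun k => ?_
    induction k with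
    | zero => simpa using hx0.1
    | succ k ih =>
      apply h1 _ ih
      rw [mem_closedBall, dist_eq_norm]
      have : t0.1 + ((k + 1 : ℕ) : ℝ) • e - (t0.1 + (k : ℝ) • e) = e := by push_cast; module
      rw [this, he]
  · -- s > 0
    have h1 : ∀ x ∈ EE, a x = s → ∃ y ∈ EE, a y = s ∧ D x y = s ∧ ‖y - x‖ = ε ∧
        ∀ z ∈ closedBall x (2 * ε), D x z ≤ 2 * s := by
      intro x hx hxs
      obtain ⟨h3, h4⟩ := hmain x hx
      have h2s : ∀ z ∈ closedBall x (2 * ε), D x z ≤ 2 * s := by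
        intro z hz
        obtain ⟨y, hy, hz2⟩ := hmid x z hz
        have h5 := hco x hx.1 y hy z hz2
        have h6 := (ha y (hEw x hx y hy)).2 z hz2
        obtain ⟨h7, h8, h9⟩ := h4 y hy
        linarith
      obtain ⟨z, hz, hzmax⟩ := (isCompact_closedBall x (2 * ε)).exists_isMaxOn
        ⟨x, mem_closedBall_self (by linarith)⟩ (hc2 x hx.1)
      have hDz : D x z = 2 * s := by
        refine le_antisymm (h2s z hz) ?_
        obtain ⟨y, hy, h⟩ := (ha x hx.1).1
        have h5 := hsl x hx.1 (D x z) (fun z' hz' => hzmax hz') y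
          (closedBall_subset_closedBall (by linarith) hy)
        have h0 : 0 ≤ D x z := by
          have := hzmax (mem_closedBall_self (by linarith) : x ∈ closedBall x (2 * ε))
          simp only [Set.mem_ofPred_eq] at this
          rwa [hd0 x hx.1] at this
        rw [mem_closedBall, dist_eq_norm] at hy
        have h6 : D x z / (2 * ε) * ‖y - x‖ ≤ D x z / (2 * ε) * ε :=
          mul_le_mul_of_nonneg_left hy (by positivity)
        have h7 : D x z / (2 * ε) * ε = D x z / 2 := by field_simp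
        linarith
      obtain ⟨y, hy, hyz⟩ := hmid x z hz
      have h5 := hco x hx.1 y hy z hyz
      have h6 := (ha y (hEw x hx y hy)).2 z hyz
      obtain ⟨h7, h8, h9⟩ := h4 y hy
      have h10 : y ∈ EE := hstepE x hx y hy (by linarith)
      have h11 := hEa y h10
      have h12 := (ha x hx.1).2 y hy
      have h13 : D x y = s := by linarith
      refine ⟨y, h10, by linarith, h13, ?_, h2s⟩
      have h14 := hsl x hx.1 (2 * s) h2s y (closedBall_subset_closedBall (by linarith) hy)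
      rw [mem_closedBall, dist_eq_norm] at hy
      rw [h13] at h14
      have h15 : 2 * s / (2 * ε) * ‖y - x‖ = s / ε * ‖y - x‖ := by field_simp
      rw [h15, div_mul_eq_mul_div, le_div_iff₀ hε] at h14
      exact le_antisymm hy (le_of_mul_le_mul_left h14 hs0)
    -- the continuation is straight
    have h2 : ∀ x ∈ EE, ∀ y ∈ EE, a x = s → a y = s → D x y = s → ‖y - x‖ = ε →
        (y + (y - x)) ∈ EE ∧ a (y + (y - x)) = s ∧ D y (y + (y - x)) = s := by
      intro x hx y hy hax hay hxy hn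
      obtain ⟨z, hz, haz, hyz, hnz, -⟩ := h1 y hy hay
      obtain ⟨_, _, _, _, _, h2s⟩ := h1 x hx hax
      have hyb : y ∈ closedBall x ε := by rw [mem_closedBall, dist_eq_norm, hn]
      have hzb : z ∈ closedBall y ε := by rw [mem_closedBall, dist_eq_norm, hnz]
      have h3 := hco x hx.1 y hyb z hzb
      have hzx : z ∈ closedBall x (2 * ε) := by
        rw [mem_closedBall] at *
        linarith [dist_triangle z y x]
      have h4 := hsl x hx.1 (2 * s) h2s z hzx
      rw [h3, hxy, hyz] at h4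
      have h15 : 2 * s / (2 * ε) * ‖z - x‖ = s / ε * ‖z - x‖ := by field_simp
      rw [h15, div_mul_eq_mul_div, le_div_iff₀ hε] at h4
      have h5 : 2 * ε ≤ ‖z - x‖ := by
        by_contra hcon
        push Not at hcon
        have : s * ‖z - x‖ < s * (2 * ε) := mul_lt_mul_of_pos_left hcon hs0
        linarith
      have h6 : ‖(z - y) + (y - x)‖ = ‖z - y‖ + ‖y - x‖ := by
        apply le_antisymm (norm_add_le _ _)
        rw [hnz, hn]
        have : z - y + (y - x) = z - x := by abel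
        rw [this]; linarith
      have h7 : SameRay ℝ (z - y) (y - x) := sameRay_iff_norm_add.2 h6
      have h8 : z - y = y - x := (sameRay_iff_of_norm_eq (by rw [hnz, hn])).1 h7
      have h9 : z = y + (y - x) := by rw [← h8]; abel
      rw [← h9]
      exact ⟨hz, haz, hyz⟩
    obtain ⟨x0E, hx0s⟩ := hx0
    obtain ⟨x1, hx1, ha1s, hD01, hn01, -⟩ := h1 _ x0E hx0s
    have hd : x1 - t0.1 ≠ 0 := by rw [← norm_pos_iff, hn01]; exact hε
    have h3 : ∀ k : ℕ, (t0.1 + (k : ℝ) • (x1 - t0.1)) ∈ EE ∧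
        a (t0.1 + (k : ℝ) • (x1 - t0.1)) = s ∧
        (t0.1 + ((k + 1 : ℕ) : ℝ) • (x1 - t0.1)) ∈ EE ∧
        a (t0.1 + ((k + 1 : ℕ) : ℝ) • (x1 - t0.1)) = s ∧
        D (t0.1 + (k : ℝ) • (x1 - t0.1)) (t0.1 + ((k + 1 : ℕ) : ℝ) • (x1 - t0.1)) = s := by
      intro k
      induction k with
      | zero =>
        have e0 : t0.1 + ((0 : ℕ) : ℝ) • (x1 - t0.1) = t0.1 := by simp
        have e1 : t0.1 + ((0 + 1 : ℕ) : ℝ) • (x1 - t0.1) = x1 := by simp
        rw [e0, e1]
        exact ⟨x0E, hx0s, hx1, ha1s, hD01⟩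
      | succ k ih =>
        obtain ⟨i1, i2, i3, i4, i5⟩ := ih
        have ed : t0.1 + ((k + 1 : ℕ) : ℝ) • (x1 - t0.1) - (t0.1 + (k : ℝ) • (x1 - t0.1)) =
            x1 - t0.1 := by push_cast; module
        have := h2 _ i1 _ i3 i2 i4 i5 (by rw [ed, hn01])
        rw [ed] at this
        have e2 : t0.1 + ((k + 1 : ℕ) : ℝ) • (x1 - t0.1) + (x1 - t0.1) =
            t0.1 + ((k + 1 + 1 : ℕ) : ℝ) • (x1 - t0.1) := by push_cast; module
        rw [e2] at this
        exact ⟨i3, i4, this.1, this.2.1, this.2.2⟩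
    exact no_chain hEb hd fun k => (h3 k).1

end Pool.Agent.H456R3.I
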