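import Pool.Agent.H456R3.I.TT
set_option autoImplicit false
set_option linter.unusedSectionVars false
set_option linter.unusedVariables false
open MeasureTheory Metric Set Filter Topology Function
open scoped InnerProductSpace

namespace Pool.Agent.H456R3.I

variable {Ω : Set E2} {u₀ u : C(closure Ω, S1)} {p : ℝ} {g : E2 → E2}

/-- modification of a circle valued map by a real function vanishing near the boundary -/
noncomputable def modi (u : C(closure Ω, S1)) (φ : E2 → ℝ) (hφ : Continuous φ) : C(closure Ω, S1) :=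
  ⟨fun x => u x - ((φ x : ℝ) : S1), u.continuous.sub
    ((AddCircle.continuous_mk' (1:ℝ)).comp (hφ.comp continuous_subtype_val))⟩

theorem modi_homotopic (u : C(closure Ω, S1)) (φ : E2 → ℝ) (hφ : Continuous φ)
    (h0 : ∀ y ∉ Ω, φ y = 0) (hΩ : IsOpen Ω) :
    ContinuousMap.HomotopicRel (modi u φ hφ) u {x : closure Ω | (x : E2) ∈ frontier Ω} := by
  refine ⟨⟨⟨⟨fun z => u z.2 - (((1 - (z.1 : ℝ)) * φ z.2 : ℝ) : S1), ?_⟩, ?_, ?_⟩, ?_⟩⟩
  · exact (u.continuous.comp continuous_snd).sub ((AddCircle.continuous_mk' (1:ℝ)).comp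
      ((continuous_const.sub (continuous_subtype_val.comp continuous_fst)).mul
        (hφ.comp (continuous_subtype_val.comp continuous_snd))))
  · intro x
    simp [modi]
  · intro x
    simp
  · intro t x hx
    have h1 : φ x = 0 := h0 _ fun h => by
      have : (x : E2) ∈ frontier Ω := hx
      rw [hΩ.frontier_eq] at this
      exact this.2 h
    simp [modi, h1]

/-- competitors -/
theorem modi_inClass (hΩ : IsOpen Ω) (hb : Bornology.IsBounded Ω) (hp : 2 < p)
    (hu : InClass Ω u₀ p u g) {φ : E2 → ℝ} {h : E2 → E2} (hφ : Continuous φ)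
    (hφ0 : ∀ y ∉ Ω, φ y = 0) (hh : Integrable h) (hhp : MemLp h (ENNReal.ofReal p) (volume.restrict Ω))
    (hw : WG φ h) : InClass Ω u₀ p (modi u φ hφ) (fun y => g y - h y) := by
  obtain ⟨h1, h2, h3⟩ := hu
  refine ⟨(modi_homotopic u φ hφ hφ0 hΩ).trans h1, h2.sub hhp, ?_⟩
  intro c r hB v hv hvl ψ hψ hψc hψs e
  have hψ1 : Continuous (fderiv ℝ ψ) := hψ.continuous_fderiv (by simp)
  have hψe : HasCompactSupport (fun y => fderiv ℝ ψ y e) := hψc.fderiv_apply ℝ e
  have hψec : Continuous (fun y => fderiv ℝ ψ y e) := hψ1.clm_apply continuous_const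
  have hse : tsupport (fun y => fderiv ℝ ψ y e) ⊆ ball c r :=
    (tsupport_fderiv_apply_subset ℝ e).trans hψs
  have e1 := h3 c r hB (fun y => v y + φ y) (hv.add hφ.continuousOn) (by
    intro y hy
    have := hvl y hy
    rw [AddCircle.coe_add, this]
    show u _ - ((φ y : ℝ) : S1) + ((φ y : ℝ) : S1) = u _
    rw [sub_add_cancel]) ψ hψ hψc hψs e
  have e2 := hw ψ hψ hψc e
  -- integrability
  have : IsFiniteMeasure (volume.restrict Ω) := ⟨by
    rw [Measure.restrict_apply_univ]; exact hb.measure_lt_top⟩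
  have hg1 : Integrable g (volume.restrict Ω) :=
    h2.integrable (by
      rw [show (1 : ENNReal) = ENNReal.ofReal 1 by simp]
      exact ENNReal.ofReal_le_ofReal (by linarith))
  have hgB : IntegrableOn g (ball c r) := IntegrableOn.mono_set hg1 hB
  have i1 : Integrable (fun y => fderiv ℝ ψ y e * v y) :=
    (continuous_cut isOpen_ball hψec hse hv).integrable_of_hasCompactSupport hψe.mul_right
  have i2 : Integrable (fun y => φ y * fderiv ℝ ψ y e) :=
    (hφ.mul hψec).integrable_of_hasCompactSupport hψe.mul_left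
  have i3 : Integrable (fun y => ⟪g y, e⟫_ℝ * ψ y) := by
    have := (integrable_cut hgB hψ.continuous hψc hψs).inner_const (𝕜 := ℝ) e
    refine this.congr (Filter.Eventually.of_forall fun y => ?_)
    simp only [real_inner_smul_left]; ring
  obtain ⟨C, hC⟩ := hψc.exists_bound_of_continuous hψ.continuous
  have i4 : Integrable (fun y => ⟪h y, e⟫_ℝ * ψ y) := by
    have := (hh.inner_const (𝕜 := ℝ) e).bdd_mul (c := C) hψ.continuous.aestronglyMeasurable
      (Filter.Eventually.of_forall hC)
    simpa only [mul_comm] using this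
  have e3 : ∫ y, (v y + φ y) * fderiv ℝ ψ y e =
      (∫ y, v y * fderiv ℝ ψ y e) + ∫ y, φ y * fderiv ℝ ψ y e := by
    rw [← integral_add (by simpa only [mul_comm] using i1) i2]
    simp only [add_mul]
  have e4 : ∫ y, ⟪g y - h y, e⟫_ℝ * ψ y =
      (∫ y, ⟪g y, e⟫_ℝ * ψ y) - ∫ y, ⟪h y, e⟫_ℝ * ψ y := by
    rw [← integral_sub i3 i4]
    simp only [inner_sub_left, sub_mul]
  rw [e3] at e1
  rw [e4]
  linarith

end Pool.Agent.H456R3.I
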