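import Mathlib
set_option autoImplicit false
open MeasureTheory Metric Set Filter Topology
open scoped InnerProductSpace

namespace Pool.Agent.H456R3.I

/-- the Euclidean plane -/
abbrev E2 : Type := EuclideanSpace ℝ (Fin 2)

/-- the circle `ℝ / ℤ` -/
abbrev S1 : Type := AddCircle (1 : ℝ)

/-- An annular region: a bounded domain whose closure is homeomorphic to the closed annulus
`{1 ≤ |x| ≤ 2}`. -/
def IsAnnular (Ω : Set E2) : Prop :=
  IsOpen Ω ∧ IsConnected Ω ∧ Bornology.IsBounded Ω ∧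
    Nonempty (closure Ω ≃ₜ {x : E2 // 1 ≤ ‖x‖ ∧ ‖x‖ ≤ 2})

/-- `g` is the weak gradient on `Ω` of the circle valued map `u`: on every ball contained in `Ω` it
is the weak gradient of every continuous real lift of `u` on this ball. -/
def IsWeakGrad (Ω : Set E2) (u : closure Ω → S1) (g : E2 → E2) : Prop :=
  ∀ (c : E2) (r : ℝ) (hB : ball c r ⊆ Ω) (v : E2 → ℝ), ContinuousOn v (ball c r) →
    (∀ (y : E2) (hy : y ∈ ball c r), ((v y : ℝ) : S1) = u ⟨y, subset_closure (hB hy)⟩) →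
    ∀ ψ : E2 → ℝ, ContDiff ℝ ((⊤ : ℕ∞) : WithTop ℕ∞) ψ → HasCompactSupport ψ →
      tsupport ψ ⊆ ball c r →
      ∀ e : E2, ∫ y, v y * fderiv ℝ ψ y e = - ∫ y, ⟪g y, e⟫_ℝ * ψ y

/-- `u` belongs to the class `C_p(u₀)` with gradient `g`: `u` is continuous on the closure of `Ω`,
homotopic to `u₀` relative to the boundary (in particular `u = u₀` there), and of class `W^{1,p}`. -/
def InClass (Ω : Set E2) (u₀ : C(closure Ω, S1)) (p : ℝ) (u : C(closure Ω, S1)) (g : E2 → E2) :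
    Prop :=
  ContinuousMap.HomotopicRel u u₀ {x : closure Ω | (x : E2) ∈ frontier Ω} ∧
    MemLp g (ENNReal.ofReal p) (volume.restrict Ω) ∧ IsWeakGrad Ω u g

/-- `u` minimises `∫_Ω |du|^p` in the class `C_p(u₀)`. -/
def IsMinimizer (Ω : Set E2) (u₀ : C(closure Ω, S1)) (p : ℝ) (u : C(closure Ω, S1)) : Prop :=
  ∃ g : E2 → E2, InClass Ω u₀ p u g ∧
    ∀ (u' : C(closure Ω, S1)) (g' : E2 → E2), InClass Ω u₀ p u' g' →
      ∫ y in Ω, ‖g y‖ ^ p ≤ ∫ y in Ω, ‖g' y‖ ^ p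

/-- `u` is `∞`-harmonic with data `u₀`: a uniform limit of minimisers `U j` of `E_{q j}` in
`C_{q j}(u₀)` for some sequence of exponents `q j > 2` tending to infinity. -/
def IsInftyHarmonic (Ω : Set E2) (u₀ u : C(closure Ω, S1)) : Prop :=
  ∃ (q : ℕ → ℝ) (U : ℕ → C(closure Ω, S1)), Tendsto q atTop atTop ∧
    (∀ j, 2 < q j ∧ IsMinimizer Ω u₀ (q j) (U j)) ∧
    TendstoUniformly (fun j x => U j x) u atTop

end Pool.Agent.H456R3.I
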