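import Pool.Agent.H456R3.I.Slope
import Pool.Agent.H456R3.I.Chain
set_option autoImplicit false
set_option linter.unusedSectionVars false
set_option linter.unusedVariables false
open MeasureTheory Metric Set Filter Topology Function
open scoped InnerProductSpace

namespace Pool.Agent.H456R3.I

variable {Ω : Set E2} {u₀ u v : C(closure Ω, S1)}

theorem homotopicRel_neg {S : Set (closure Ω)} (h : ContinuousMap.HomotopicRel u v S) :
    ContinuousMap.HomotopicRel (-u) (-v) S := by
  obtain ⟨H⟩ := h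
  refine ⟨⟨⟨⟨fun z => - H z, H.continuous.neg⟩, ?_, ?_⟩, ?_⟩⟩
  · intro x; simp
  · intro x; simp
  · intro t x hx
    have := H.eq_fst t hx
    show - H (t, x) = - u x
    rw [this]

theorem inClass_neg {p : ℝ} {g : E2 → E2} (h : InClass Ω u₀ p u g) :
    InClass Ω (-u₀) p (-u) (fun y => - g y) := by
  obtain ⟨h1, h2, h3⟩ := h
  refine ⟨homotopicRel_neg h1, h2.neg, ?_⟩
  intro c r hB v hv hvl ψ hψ hψc hψs e
  have := h3 c r hB (fun y => - v y) hv.neg (by
    intro y hy
    have := hvl y hy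
    rw [AddCircle.coe_neg, this]
    simp) ψ hψ hψc hψs e
  simp only [neg_mul, inner_neg_left, integral_neg] at this ⊢
  linarith

theorem isMinimizer_neg {p : ℝ} (h : IsMinimizer Ω u₀ p u) : IsMinimizer Ω (-u₀) p (-u) := by
  obtain ⟨g, h1, h2⟩ := h
  refine ⟨fun y => - g y, inClass_neg h1, fun u' g' h' => ?_⟩
  have h3 := inClass_neg h'
  rw [neg_neg] at h3
  have h4 := h2 _ _ h3
  simpa using h4

theorem isInftyHarmonic_neg (h : IsInftyHarmonic Ω u₀ u) : IsInftyHarmonic Ω (-u₀) (-u) := by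
  obtain ⟨q, U, h1, h2, h3⟩ := h
  refine ⟨q, fun j => - U j, h1, fun j => ⟨(h2 j).1, isMinimizer_neg (h2 j).2⟩, ?_⟩
  rw [Metric.tendstoUniformly_iff] at h3 ⊢
  intro ε hε
  filter_upwards [h3 ε hε] with j hj x
  have := hj x
  simpa [dist_neg_neg] using this

theorem ex_neg (u : C(closure Ω, S1)) (y : E2) : ex (-u) y = - ex u y := by
  unfold ex
  split_ifs <;> simp

/-- the lower slope inequality -/
theorem slope_neg (hΩ : IsOpen Ω) (hb : Bornology.IsBounded Ω) (hu : IsInftyHarmonic Ω u₀ u)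
    {x₀ : E2} {R r : ℝ} (hr : 0 < r) (hrR : r < R) (hball : ball x₀ R ⊆ Ω)
    (hosc : ∀ y ∈ ball x₀ R, ‖ex u y - ex u x₀‖ < 1 / 4) {m : ℝ}
    (hm : ∀ z ∈ closedBall x₀ r, -m ≤ DD u x₀ z) :
    ∀ y ∈ closedBall x₀ r, -(m / r * ‖y - x₀‖) ≤ DD u x₀ y := by
  have hsub : closedBall x₀ r ⊆ ball x₀ R := closedBall_subset_ball hrR
  have h1 : ∀ y ∈ ball x₀ R, DD (-u) x₀ y = - DD u x₀ y := by
    intro y hy
    unfold DD
    rw [ex_neg, ex_neg]
    have : -ex u y - -ex u x₀ = -(ex u y - ex u x₀) := by abel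
    rw [this]
    exact sm_neg (by linarith [hosc y hy])
  intro y hy
  have h2 := slope hΩ hb (isInftyHarmonic_neg hu) hr hrR hball (by
    intro y hy
    rw [ex_neg, ex_neg]
    have : -ex u y - -ex u x₀ = -(ex u y - ex u x₀) := by abel
    rw [this, norm_neg]
    exact hosc y hy) (m := m) (by
    intro z hz
    rw [h1 z (hsub hz)]
    linarith [hm z hz]) y hy
  rw [h1 y (hsub hy)] at h2
  linarith

/-- every infinity-harmonic map has a real lift of its difference with `u₀` -/
theorem lift_infty (hb : Bornology.IsBounded Ω) (hu : IsInftyHarmonic Ω u₀ u) :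
    ∃ w : closure Ω → ℝ, Continuous w ∧ (∀ x, ((w x : ℝ) : S1) = u₀ x - u x) ∧
      ∀ x : closure Ω, (x : E2) ∈ frontier Ω → w x = 0 := by
  obtain ⟨q, U, h1, h2, h3⟩ := hu
  obtain ⟨j, hj⟩ := (Metric.tendstoUniformly_iff.1 h3 (1/2) (by norm_num)).exists
  obtain ⟨g, hc, -⟩ := (h2 j).2
  obtain ⟨w, w1, w2, w3⟩ := exists_lift_of_homotopicRel hc.1
  -- boundary values
  have hbd : ∀ (i : ℕ) (x : closure Ω), (x : E2) ∈ frontier Ω → U i x = u₀ x := by
    intro i x hx
    obtain ⟨g, hc, -⟩ := (h2 i).2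
    obtain ⟨H⟩ := hc.1
    have := H.eq_fst 1 (show x ∈ {x : closure Ω | (x : E2) ∈ frontier Ω} from hx)
    rw [H.apply_one] at this
    exact this.symm
  have hbu : ∀ (x : closure Ω), (x : E2) ∈ frontier Ω → u x = u₀ x := by
    intro x hx
    have h4 : Tendsto (fun i => U i x) atTop (𝓝 (u x)) := h3.tendsto_at x
    have h5 : Tendsto (fun i => U i x) atTop (𝓝 (u₀ x)) := by
      simp only [hbd _ x hx]; exact tendsto_const_nhds
    exact tendsto_nhds_unique h4 h5
  have hlt : ∀ x, ‖U j x - u x‖ < 1 / 2 := by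
    intro x
    have := hj x
    rwa [dist_eq_norm, norm_sub_rev] at this
  refine ⟨fun x => w x + sm (U j x - u x), ?_, ?_, ?_⟩
  · refine w1.add ?_
    rw [continuous_iff_continuousAt]
    intro x
    have h6 : ContinuousAt (fun x => U j x - u x) x :=
      ((U j).continuous.sub u.continuous).continuousAt
    exact ContinuousAt.comp (g := sm) (f := fun x => U j x - u x) (sm_cont (hlt x)) h6
  · intro x
    rw [AddCircle.coe_add, w2, sm_coe]
    abel
  · intro x hx
    simp only []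
    rw [w3 x hx, hbd j x hx, hbu x hx, sub_self, sm_zero, add_zero]

end Pool.Agent.H456R3.I
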