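import Pool.Agent.H456R3.I.Comp
set_option autoImplicit false
set_option linter.unusedSectionVars false
set_option linter.unusedVariables false
open MeasureTheory Metric Set Filter Topology Function
open scoped InnerProductSpace

namespace Pool.Agent.H456R3.I

variable {Ω : Set E2} {u₀ u : C(closure Ω, S1)} {p : ℝ}

theorem inner_single (v : E2) (i : Fin 2) : ⟪v, EuclideanSpace.single i (1:ℝ)⟫_ℝ = v i := by
  simp [EuclideanSpace.inner_single_right]

/-- The divergence of `|y - x₀|^{-κ} (y - x₀)`, computed on the components of the cut-off field. -/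
theorem div_field (x₀ : E2) (κ : ℝ) {χ : E2 → ℝ} {y : E2} (hy : y ≠ x₀) (hχ : χ =ᶠ[𝓝 y] 1)
    (i : Fin 2) :
    fderiv ℝ (fun y => χ y * (‖y - x₀‖ ^ (-κ) * (y i - x₀ i))) y (EuclideanSpace.single i 1) =
      -κ * ‖y - x₀‖ ^ (-κ - 2) * (y i - x₀ i) ^ 2 + ‖y - x₀‖ ^ (-κ) := by
  have h1 : (fun y : E2 => χ y * (‖y - x₀‖ ^ (-κ) * (y i - x₀ i))) =ᶠ[𝓝 y]
      fun y => ‖y - x₀‖ ^ (-κ) * (y i - x₀ i) := by
    filter_upwards [hχ] with z hz
    rw [hz]; simp
  rw [h1.fderiv_eq]
  have h2 := hasFDerivAt_pow x₀ (-κ) hy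
  have h3 : HasFDerivAt (fun y : E2 => y i - x₀ i) (EuclideanSpace.proj i : E2 →L[ℝ] ℝ) y :=
    ((EuclideanSpace.proj i : E2 →L[ℝ] ℝ).hasFDerivAt).sub_const _
  have h4 : fderiv ℝ (fun y : E2 => ‖y - x₀‖ ^ (-κ) * (y i - x₀ i)) y =
      ‖y - x₀‖ ^ (-κ) • (EuclideanSpace.proj i : E2 →L[ℝ] ℝ) +
        (y i - x₀ i) • ((-κ * ‖y - x₀‖ ^ (-κ - 2)) • innerSL ℝ (y - x₀)) := (h2.mul h3).fderiv
  rw [h4]
  have h5 : (EuclideanSpace.proj i : E2 →L[ℝ] ℝ) (EuclideanSpace.single i 1) = 1 := by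
    simp
  have h6 : innerSL ℝ (y - x₀) (EuclideanSpace.single i (1:ℝ)) = y i - x₀ i := by
    rw [innerSL_apply_apply, inner_single]; simp
  simp only [add_apply, smul_apply, smul_eq_mul, h5, h6]
  ring

theorem key (hΩ : IsOpen Ω) (hb : Bornology.IsBounded Ω) (hp : 2 < p)
    (hmin : IsMinimizer Ω u₀ p u) {x₀ : E2} {R r r₀ : ℝ} (h0 : 0 < r₀) (hr0 : r₀ < r) (hrR : r < R)
    (hball : ball x₀ R ⊆ Ω) {U : E2 → ℝ} (hU : ContinuousOn U (ball x₀ R))
    (hUl : ∀ (y : E2) (hy : y ∈ ball x₀ R), ((U y : ℝ) : S1) = u ⟨y, subset_closure (hball hy)⟩)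
    {A b γ : ℝ} (hb0 : 0 < b) (hγ : 0 < γ) (hκ : 1 < (1 - γ) * (p - 1))
    (hin : ∀ y, ‖y - x₀‖ ≤ r₀ → U y < A + b * ‖y - x₀‖ ^ γ)
    (hout : ∀ y, ‖y - x₀‖ = r → U y < A + b * ‖y - x₀‖ ^ γ) :
    ∀ y, ‖y - x₀‖ ≤ r → U y ≤ A + b * ‖y - x₀‖ ^ γ := by
  obtain ⟨g, hu, hg⟩ := hmin
  by_contra hcon
  push Not at hcon
  obtain ⟨y₁, hy₁r, hy₁⟩ := hcon
  set G : E2 → ℝ := fun y => A + b * ‖y - x₀‖ ^ γ with hG
  have hGc : Continuous G :=
    continuous_const.add (continuous_const.mul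
      ((continuous_id.sub continuous_const).norm.rpow_const (fun _ => Or.inr hγ.le)))
  have hsubR : closedBall x₀ r ⊆ ball x₀ R := closedBall_subset_ball hrR
  -- the contact set
  set Q : Set E2 := closedBall x₀ r ∩ (fun y => U y - G y) ⁻¹' (Ici 0) with hQ
  have hQc : IsCompact Q := by
    have h1 : ContinuousOn (fun y => U y - G y) (closedBall x₀ r) :=
      (hU.mono hsubR).sub hGc.continuousOn
    exact (isCompact_closedBall x₀ r).of_isClosed_subset
      (h1.preimage_isClosed_of_isClosed isClosed_closedBall isClosed_Ici) Set.inter_subset_left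
  have hQ1 : y₁ ∈ Q := by
    refine ⟨by rw [mem_closedBall, dist_eq_norm]; exact hy₁r, ?_⟩
    show 0 ≤ U y₁ - G y₁
    have : G y₁ < U y₁ := hy₁
    linarith
  have hnc : ContinuousOn (fun y : E2 => ‖y - x₀‖) Q := by fun_prop
  obtain ⟨z₁, hz₁, hz₁m⟩ := hQc.exists_isMinOn ⟨y₁, hQ1⟩ hnc
  obtain ⟨z₂, hz₂, hz₂m⟩ := hQc.exists_isMaxOn ⟨y₁, hQ1⟩ hnc
  have hr1 : r₀ < ‖z₁ - x₀‖ := by
    by_contra h
    push Not at h
    have h1 := hin z₁ h
    have h2 : 0 ≤ U z₁ - G z₁ := hz₁.2
    have h3 : G z₁ = A + b * ‖z₁ - x₀‖ ^ γ := rfl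
    linarith
  have hr2 : ‖z₂ - x₀‖ < r := by
    have h1 : ‖z₂ - x₀‖ ≤ r := by have := hz₂.1; rwa [mem_closedBall, dist_eq_norm] at this
    refine lt_of_le_of_ne h1 fun h => ?_
    have h1 := hout z₂ h
    have h2 : 0 ≤ U z₂ - G z₂ := hz₂.2
    have h3 : G z₂ = A + b * ‖z₂ - x₀‖ ^ γ := rfl
    linarith
  obtain ⟨χ, hχ, hχc, hχ01, hχ1, hχs⟩ := exists_chi x₀ h0 hr1 (hz₁m hz₂) hr2
  have hχB : tsupport χ ⊆ ball x₀ R := fun y hy => by
    rw [mem_ball, dist_eq_norm]; exact (hχs hy).2.trans hrR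
  have hχn : tsupport χ ⊆ {x₀}ᶜ := fun y hy h => by
    have h1 : y = x₀ := h
    have := (hχs hy).1
    rw [h1, sub_self, norm_zero] at this
    linarith
  -- k = χ G
  have hGs : ∀ y ∈ ({x₀}ᶜ : Set E2), ContDiffAt ℝ Sm G y := fun y hy =>
    contDiffAt_const.add (contDiffAt_const.mul (contDiffAt_pow x₀ γ hy))
  have hk : ContDiff ℝ Sm (fun y => χ y * G y) := contDiff_cut hχ hχn hGs
  have hkc : HasCompactSupport (fun y => χ y * G y) := hχc.mul_right
  set k : E2 → ℝ := fun y => χ y * G y with hkd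
  -- gradient data
  have : IsFiniteMeasure (volume.restrict Ω) := ⟨by
    rw [Measure.restrict_apply_univ]; exact hb.measure_lt_top⟩
  have hg1 : Integrable g (volume.restrict Ω) :=
    hu.2.1.integrable (by
      rw [show (1 : ENNReal) = ENNReal.ofReal 1 by simp]
      exact ENNReal.ofReal_le_ofReal (by linarith))
  have hgB : IntegrableOn g (ball x₀ R) := IntegrableOn.mono_set hg1 hball
  have hLW : LW x₀ R U g := fun ψ a1 a2 a3 e => hu.2.2 x₀ R hball U hU hUl ψ a1 a2 a3 e
  have hc1 : Continuous (fun y => χ y * U y) := continuous_cut isOpen_ball hχ.continuous hχB hU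
  have w1 := WG.cut hU hgB hLW hχ hχc hχB
  have w2 := WG.smooth hk hkc
  have hgrc : Continuous (fun y => U y • gradient χ y) := by
    rw [continuous_iff_continuousAt]
    intro y
    by_cases hy : y ∈ ball x₀ R
    · exact (hU.continuousAt (isOpen_ball.mem_nhds hy)).smul (continuous_grad hχ).continuousAt
    · have h2 : χ =ᶠ[𝓝 y] 0 := notMem_tsupport_iff_eventuallyEq.1 fun h => hy (hχB h)
      have h3 : (fun y => U y • gradient χ y) =ᶠ[𝓝 y] fun _ => 0 := by
        filter_upwards [h2.eventuallyEq_nhds] with z hz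
        have : gradient χ z = 0 := by
          unfold gradient
          rw [hz.fderiv_eq]; simp
        rw [this, smul_zero]
      exact continuousAt_const.congr h3.symm
  have hgrs : HasCompactSupport (fun y => U y • gradient χ y) := by
    refine HasCompactSupport.of_support_subset_isCompact hχc fun y hy => ?_
    by_contra h
    apply hy
    have h2 : χ =ᶠ[𝓝 y] 0 := notMem_tsupport_iff_eventuallyEq.1 h
    have : gradient χ y = 0 := by
      unfold gradient
      rw [h2.fderiv_eq]; simp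
    show U y • gradient χ y = 0
    rw [this, smul_zero]
  have hi1 : Integrable (fun y => χ y • g y + U y • gradient χ y) :=
    (integrable_cut hgB hχ.continuous hχc hχB).add (hgrc.integrable_of_hasCompactSupport hgrs)
  have hkgs : HasCompactSupport (gradient k) := by
    refine HasCompactSupport.of_support_subset_isCompact hkc fun y hy => ?_
    by_contra h
    apply hy
    have h2 : k =ᶠ[𝓝 y] 0 := notMem_tsupport_iff_eventuallyEq.1 h
    show gradient k y = 0
    unfold gradient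
    rw [h2.fderiv_eq]; simp
  have hi2 : Integrable (gradient k) := (continuous_grad hk).integrable_of_hasCompactSupport hkgs
  set f : E2 → ℝ := fun y => χ y * U y - k y with hf
  set hfv : E2 → E2 := fun y => (χ y • g y + U y • gradient χ y) - gradient k y with hhf
  have hfc : Continuous f := hc1.sub hk.continuous
  have hfs : HasCompactSupport f := by
    have h1 : HasCompactSupport (fun y => χ y * U y) := hχc.mul_right
    exact h1.sub hkc
  have hfi : Integrable hfv := hi1.sub hi2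
  have wf : WG f hfv := WG.sub hc1 hk.continuous hi1 hi2 w1 w2
  have wφ : WG (fun y => expNegInvGlue (f y)) (fun y => deriv expNegInvGlue (f y) • hfv y) :=
    wf.comp hfc hfs hfi T_smooth
  set φ : E2 → ℝ := fun y => expNegInvGlue (f y) with hφ
  set h : E2 → E2 := fun y => deriv expNegInvGlue (f y) • hfv y with hh
  have hφc : Continuous φ := T_smooth.continuous.comp hfc
  -- positivity set of f
  have hpos : ∀ y, 0 < f y → y ∈ Q ∧ χ =ᶠ[𝓝 y] 1 ∧ y ≠ x₀ := by
    intro y hy
    have h1 : f y = χ y * (U y - G y) := by simp only [hf, hkd]; ring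
    rw [h1] at hy
    have h2 : χ y ≠ 0 := fun h => by rw [h, zero_mul] at hy; exact lt_irrefl _ hy
    have h3 := hχs (subset_tsupport _ h2)
    have h4 : 0 < χ y := lt_of_le_of_ne (hχ01 y).1 (Ne.symm h2)
    have h5 : 0 < U y - G y := (mul_pos_iff_of_pos_left h4).1 hy
    have h6 : y ∈ Q := ⟨by rw [mem_closedBall, dist_eq_norm]; exact h3.2.le, h5.le⟩
    refine ⟨h6, hχ1 y (hz₁m h6) (hz₂m h6), ?_⟩
    intro h7
    have h8 : r₀ < ‖y - x₀‖ := h3.1
    rw [h7, sub_self, norm_zero] at h8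
    linarith
  have hnp : ∀ y, f y ≤ 0 → φ y = 0 ∧ h y = 0 := by
    intro y hy
    refine ⟨expNegInvGlue.zero_of_nonpos hy, ?_⟩
    simp only [hh]
    rw [T_deriv_nonpos hy, zero_smul]
  -- the gradient of G
  set gG : E2 → E2 := fun y => (b * γ * ‖y - x₀‖ ^ (γ - 2)) • (y - x₀) with hgG
  have hval : ∀ y, 0 < f y → h y = deriv expNegInvGlue (f y) • (g y - gG y) ∧
      gradient k y = gG y := by
    intro y hy
    obtain ⟨h1, h2, h3⟩ := hpos y hy
    have h4 : gradient χ y = 0 := by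
      unfold gradient
      rw [h2.fderiv_eq]
      have : fderiv ℝ (1 : E2 → ℝ) y = 0 := by
        show fderiv ℝ (fun _ => (1:ℝ)) y = 0
        simp
      rw [this, map_zero]
    have h5 : gradient k y = gG y := by
      have h6 : k =ᶠ[𝓝 y] G := by
        filter_upwards [h2] with z hz
        simp only [hkd]; rw [hz]; simp
      have h7 : HasFDerivAt G (b • ((γ * ‖y - x₀‖ ^ (γ - 2)) • innerSL ℝ (y - x₀))) y :=
        ((hasFDerivAt_pow x₀ γ h3).const_mul b).const_add A
      unfold gradient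
      rw [h6.fderiv_eq, h7.fderiv]
      apply (InnerProductSpace.toDual ℝ E2).injective
      rw [LinearIsometryEquiv.apply_symm_apply]
      ext e
      simp only [hgG, smul_apply, innerSL_apply_apply, smul_eq_mul,
        InnerProductSpace.toDual_apply_apply, real_inner_smul_left]
      ring
    refine ⟨?_, h5⟩
    have h8 : χ y = 1 := by have := h2.eq_of_nhds; simpa using this
    simp only [hh, hhf]
    rw [h4, h5, h8]
    simp
  -- exponents
  set κ : ℝ := (1 - γ) * (p - 1) + 1 with hκd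
  have hκ2 : 2 < κ := by linarith
  set c : ℝ := (b * γ) ^ (p - 1) with hc
  have hc0 : 0 < c := by positivity
  -- the test functions
  set ζ : Fin 2 → E2 → ℝ := fun i y => χ y * (‖y - x₀‖ ^ (-κ) * (y i - x₀ i)) with hζ
  have hζs : ∀ i, ContDiff ℝ Sm (ζ i) := fun i => contDiff_cut hχ hχn (fun y hy =>
    (contDiffAt_pow x₀ (-κ) hy).mul
      (((EuclideanSpace.proj i : E2 →L[ℝ] ℝ).contDiff.contDiffAt).sub contDiffAt_const))
  have hζc : ∀ i, HasCompactSupport (ζ i) := fun i => hχc.mul_right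
  set D : E2 → ℝ := fun y => ∑ i, fderiv ℝ (ζ i) y (EuclideanSpace.single i 1) with hD
  set S : E2 → ℝ := fun y => ∑ i, ⟪h y, EuclideanSpace.single i (1:ℝ)⟫_ℝ * ζ i y with hS
  have hζ1 : ∀ i, Continuous (fun y => fderiv ℝ (ζ i) y (EuclideanSpace.single i 1)) := fun i =>
    ((hζs i).continuous_fderiv (by simp)).clm_apply continuous_const
  have hDc : Continuous D := continuous_finsetSum _ fun i _ => hζ1 i
  have hhi : Integrable h := by
    obtain ⟨C, hC⟩ : ∃ C, ∀ y, ‖deriv expNegInvGlue (f y)‖ ≤ C := ⟨1, fun y => by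
      rw [Real.norm_of_nonneg (T_deriv_mem _).1]; exact (T_deriv_mem _).2⟩
    exact hfi.bdd_smul C (((T_smooth.continuous_deriv (by simp)).comp hfc).aestronglyMeasurable)
      (Filter.Eventually.of_forall hC)
  have hSi : ∀ i, Integrable (fun y => ⟪h y, EuclideanSpace.single i (1:ℝ)⟫_ℝ * ζ i y) := by
    intro i
    obtain ⟨C, hC⟩ := (hζc i).exists_bound_of_continuous (hζs i).continuous
    have := (hhi.inner_const (𝕜 := ℝ) (EuclideanSpace.single i (1:ℝ))).bdd_mul (c := C)
      (hζs i).continuous.aestronglyMeasurable (Filter.Eventually.of_forall hC)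
    simpa only [mul_comm] using this
  have hSint : Integrable S := integrable_finsetSum _ fun i _ => hSi i
  have hpar : ∫ y, - (φ y * D y) = ∫ y, S y := by
    have h1 : ∀ y, φ y * D y = ∑ i, φ y * fderiv ℝ (ζ i) y (EuclideanSpace.single i 1) := by
      intro y; rw [hD]; simp only []; rw [Finset.mul_sum]
    rw [integral_neg]
    simp only [h1, hS]
    rw [integral_finsetSum _ fun i _ => hSi i, integral_finsetSum]
    · rw [← Finset.sum_neg_distrib]
      refine Finset.sum_congr rfl fun i _ => ?_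
      rw [wφ (ζ i) (hζs i) (hζc i), neg_neg]
    · intro i _
      exact (hφc.mul (hζ1 i)).integrable_of_hasCompactSupport
        ((hζc i).fderiv_apply ℝ _).mul_left
  -- sign of the divergence
  have hDneg : ∀ y, 0 < f y → D y < 0 := by
    intro y hy
    obtain ⟨h1, h2, h3⟩ := hpos y hy
    have h4 : D y = (2 - κ) * ‖y - x₀‖ ^ (-κ) := by
      have h5 : ∀ i, fderiv ℝ (ζ i) y (EuclideanSpace.single i 1) =
          -κ * ‖y - x₀‖ ^ (-κ - 2) * (y i - x₀ i) ^ 2 + ‖y - x₀‖ ^ (-κ) := fun i =>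
        div_field x₀ κ h3 h2 i
      have hn : 0 < ‖y - x₀‖ := norm_pos_iff.2 (sub_ne_zero.2 h3)
      have h6 : ‖y - x₀‖ ^ (-κ) = ‖y - x₀‖ ^ (-κ - 2) * ‖y - x₀‖ ^ 2 := by
        rw [← Real.rpow_natCast, ← Real.rpow_add hn]; congr 1; push_cast; ring
      have h7 : ‖y - x₀‖ ^ 2 = (y 0 - x₀ 0) ^ 2 + (y 1 - x₀ 1) ^ 2 := by
        rw [EuclideanSpace.real_norm_sq_eq, Fin.sum_univ_two]; rfl
      rw [hD]
      simp only [h5, Fin.sum_univ_two]
      rw [h6]
      have h8 : -κ * ‖y - x₀‖ ^ (-κ - 2) * (y 0 - x₀ 0) ^ 2 + ‖y - x₀‖ ^ (-κ - 2) * ‖y - x₀‖ ^ 2 +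
          (-κ * ‖y - x₀‖ ^ (-κ - 2) * (y 1 - x₀ 1) ^ 2 + ‖y - x₀‖ ^ (-κ - 2) * ‖y - x₀‖ ^ 2) =
          -κ * ‖y - x₀‖ ^ (-κ - 2) * ((y 0 - x₀ 0) ^ 2 + (y 1 - x₀ 1) ^ 2) +
            2 * (‖y - x₀‖ ^ (-κ - 2) * ‖y - x₀‖ ^ 2) := by ring
      rw [h8, ← h7]
      ring
    rw [h4]
    have hn : 0 < ‖y - x₀‖ := norm_pos_iff.2 (sub_ne_zero.2 h3)
    have : 0 < ‖y - x₀‖ ^ (-κ) := Real.rpow_pos_of_pos hn _
    nlinarith
  have hfy1 : 0 < f y₁ := by
    have h1 : χ y₁ = 1 := by
      have := (hχ1 y₁ (hz₁m hQ1) (hz₂m hQ1)).eq_of_nhds; simpa using this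
    have h2 : G y₁ < U y₁ := hy₁
    simp only [hf, hkd]
    rw [h1]; linarith
  have hSpos : 0 < ∫ y, S y := by
    rw [← hpar]
    have hcont : Continuous (fun y => -(φ y * D y)) := (hφc.mul hDc).neg
    refine hcont.integral_pos_of_hasCompactSupport_nonneg_nonzero (x := y₁) ?_ ?_ ?_
    · have h1 : HasCompactSupport φ := by
        refine hfs.comp_left (g := expNegInvGlue) expNegInvGlue.zero
      have h2 : HasCompactSupport (fun y => φ y * D y) := h1.mul_right
      exact h2.neg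
    · intro y
      show 0 ≤ -(φ y * D y)
      rcases le_or_gt (f y) 0 with h1 | h1
      · rw [(hnp y h1).1]; simp
      · have h2 := hDneg y h1
        have h3 : 0 < φ y := expNegInvGlue.pos_of_pos h1
        nlinarith
    · have h2 := hDneg y₁ hfy1
      have h3 : 0 < φ y₁ := expNegInvGlue.pos_of_pos hfy1
      have : 0 < -(φ y₁ * D y₁) := by nlinarith
      exact this.ne'
  -- pointwise inequality
  have hpt : ∀ y, ‖g y - h y‖ ^ p ≤ ‖g y‖ ^ p - p * (c * S y) := by
    intro y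
    rcases le_or_gt (f y) 0 with h1 | h1
    · have h2 : S y = 0 := by
        simp only [hS]; rw [(hnp y h1).2]; simp
      rw [h2, (hnp y h1).2]; simp
    · obtain ⟨h2, h3, h4⟩ := hpos y h1
      obtain ⟨h5, -⟩ := hval y h1
      have hn : 0 < ‖y - x₀‖ := norm_pos_iff.2 (sub_ne_zero.2 h4)
      set τ := deriv expNegInvGlue (f y) with hτ
      have h6 := conv_ineq hp (g y) (gG y) (T_deriv_mem (f y)).1 (T_deriv_mem (f y)).2
      rw [← hτ, ← h5] at h6
      have hχy : χ y = 1 := by have := h3.eq_of_nhds; simpa using this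
      have h7 : S y = ‖y - x₀‖ ^ (-κ) * (τ * ⟪y - x₀, g y - gG y⟫_ℝ) := by
        have h8 : ∀ i, ⟪h y, EuclideanSpace.single i (1:ℝ)⟫_ℝ * ζ i y =
            ‖y - x₀‖ ^ (-κ) * (τ * ((g y - gG y) i * (y - x₀) i)) := by
          intro i
          rw [inner_single, h5]
          simp only [hζ]
          rw [hχy]
          simp only [PiLp.smul_apply, PiLp.sub_apply, smul_eq_mul]
          ring
        simp only [hS]
        simp only [h8]
        rw [← Finset.mul_sum, ← Finset.mul_sum]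
        congr 2
      have h9 : ‖gG y‖ = b * γ * ‖y - x₀‖ ^ (γ - 1) := by
        simp only [hgG]
        rw [norm_smul, Real.norm_of_nonneg (by positivity), mul_assoc]
        congr 1
        nth_rw 2 [← Real.rpow_one ‖y - x₀‖]
        rw [← Real.rpow_add hn]; congr 1; ring
      have h10 : ‖gG y‖ ^ (p - 2) * ⟪gG y, g y - gG y⟫_ℝ =
          c * ‖y - x₀‖ ^ (-κ) * ⟪y - x₀, g y - gG y⟫_ℝ := by
        rw [h9, Real.mul_rpow (by positivity) (by positivity), ← Real.rpow_mul hn.le]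
        have h11 : ⟪gG y, g y - gG y⟫_ℝ =
            b * γ * ‖y - x₀‖ ^ (γ - 2) * ⟪y - x₀, g y - gG y⟫_ℝ := by
          conv_lhs => rw [show gG y = (b * γ * ‖y - x₀‖ ^ (γ - 2)) • (y - x₀) from rfl]
          rw [real_inner_smul_left]
        rw [h11, hc]
        have h12 : (b * γ) ^ (p - 1) = (b * γ) ^ (p - 2) * (b * γ) := by
          nth_rw 3 [← Real.rpow_one (b * γ)]
          rw [← Real.rpow_add (by positivity)]; congr 1; ring
        have h13 : ‖y - x₀‖ ^ (-κ) = ‖y - x₀‖ ^ ((γ - 1) * (p - 2)) * ‖y - x₀‖ ^ (γ - 2) := by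
          rw [← Real.rpow_add hn]; congr 1; rw [hκd]; ring
        rw [h12, h13]; ring
      have h14 : c * S y = τ * (‖gG y‖ ^ (p - 2) * ⟪gG y, g y - gG y⟫_ℝ) := by
        rw [h10, h7]; ring
      rw [h14]
      exact h6
  -- membership of the competitor
  have hhp : MemLp h (ENNReal.ofReal p) (volume.restrict Ω) := by
    obtain ⟨C, hC⟩ := hkgs.exists_bound_of_continuous (continuous_grad hk)
    have h1 : MemLp (fun y => ‖g y‖ + C) (ENNReal.ofReal p) (volume.restrict Ω) :=
      hu.2.1.norm.add (memLp_const C)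
    refine h1.mono' hhi.aestronglyMeasurable.restrict (Filter.Eventually.of_forall fun y => ?_)
    have hC0 : 0 ≤ C := (norm_nonneg _).trans (hC 0)
    rcases le_or_gt (f y) 0 with h2 | h2
    · rw [(hnp y h2).2, norm_zero]; positivity
    · obtain ⟨h3, h4⟩ := hval y h2
      rw [h3, norm_smul, Real.norm_of_nonneg (T_deriv_mem _).1]
      have h5 : ‖g y - gG y‖ ≤ ‖g y‖ + C := by
        refine (norm_sub_le _ _).trans ?_
        rw [← h4]
        linarith [hC y]
      calc deriv expNegInvGlue (f y) * ‖g y - gG y‖ ≤ 1 * ‖g y - gG y‖ :=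
            mul_le_mul_of_nonneg_right (T_deriv_mem _).2 (norm_nonneg _)
        _ ≤ ‖g y‖ + C := by rw [one_mul]; exact h5
  have hout0 : ∀ y ∉ Ω, f y ≤ 0 := by
    intro y hy
    by_contra hcon
    push Not at hcon
    exact hy (hball (hsubR (hpos y hcon).1.1))
  have hcl := modi_inClass hΩ hb hp hu hφc (fun y hy => (hnp y (hout0 y hy)).1) hhi hhp wφ
  have hE := hg _ _ hcl
  -- integrate
  have hgp : Integrable (fun y => ‖g y‖ ^ p) (volume.restrict Ω) := by
    have := hu.2.1.integrable_norm_rpow (by simp; linarith) (by simp)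
    rwa [ENNReal.toReal_ofReal (by linarith)] at this
  have hghp : Integrable (fun y => ‖g y - h y‖ ^ p) (volume.restrict Ω) := by
    have := (hu.2.1.sub hhp).integrable_norm_rpow (by simp; linarith) (by simp)
    rwa [ENNReal.toReal_ofReal (by linarith)] at this
  have hcS : Integrable (fun y => p * (c * S y)) (volume.restrict Ω) :=
    ((hSint.const_mul c).const_mul p).restrict
  have hI : ∫ y in Ω, ‖g y - h y‖ ^ p ≤ ∫ y in Ω, (‖g y‖ ^ p - p * (c * S y)) :=
    integral_mono hghp (hgp.sub hcS) hpt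
  rw [integral_sub hgp hcS, integral_const_mul, integral_const_mul] at hI
  have hSΩ : ∫ y in Ω, S y = ∫ y, S y := by
    apply setIntegral_eq_integral_of_forall_compl_eq_zero
    intro y hy
    simp only [hS]; rw [(hnp y (hout0 y hy)).2]; simp
  rw [hSΩ] at hI
  have : 0 < p * (c * ∫ y, S y) := by positivity
  linarith

end Pool.Agent.H456R3.I
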