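import Pool.Agent.H456R3.I.Fin
set_option autoImplicit false
set_option linter.unusedSectionVars false
set_option linter.unusedVariables false
open MeasureTheory Metric Set Filter Topology Function
open scoped InnerProductSpace

namespace Pool.Agent.H456R3.I

variable {Ω : Set E2} {u₀ u v : C(closure Ω, S1)}

theorem le_zero (hΩ : IsOpen Ω) (hb : Bornology.IsBounded Ω) (hu : IsInftyHarmonic Ω u₀ u)
    (hv : IsInftyHarmonic Ω u₀ v) {w : closure Ω → ℝ} (hwc : Continuous w)
    (hwl : ∀ x, ((w x : ℝ) : S1) = u x - v x)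
    (hw0 : ∀ x : closure Ω, (x : E2) ∈ frontier Ω → w x = 0) (x₀ : closure Ω) : w x₀ ≤ 0 := by
  classical
  by_contra hcon
  push Not at hcon
  have hΩc : IsCompact (closure Ω) := hb.isCompact_closure
  set W : E2 → ℝ := fun y => if h : y ∈ closure Ω then w ⟨y, h⟩ else 0 with hW
  have hWe : ∀ (y : E2) (h : y ∈ closure Ω), W y = w ⟨y, h⟩ := fun y h => dif_pos h
  have hWc : ContinuousOn W (closure Ω) := by
    rw [continuousOn_iff_continuous_domRestrict]
    have : (closure Ω).domRestrict W = w := by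
      ext y
      exact hWe y y.2
    rw [this]
    exact hwc
  obtain ⟨xM, hxM, hxMm⟩ := hΩc.exists_isMaxOn ⟨x₀, x₀.2⟩ hWc
  set M := W xM with hM
  have hMle : ∀ y ∈ closure Ω, W y ≤ M := fun y hy => hxMm hy
  have hM0 : 0 < M := by
    have := hMle x₀ x₀.2
    rw [hWe _ x₀.2] at this
    linarith
  set η := min (M / 8) (1 / 16) with hη
  have hη0 : 0 < η := lt_min (by linarith) (by norm_num)
  have hηM : η ≤ M / 8 := min_le_left _ _
  have hη1 : η ≤ 1 / 16 := min_le_right _ _
  -- uniform continuity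
  have hunif : ∃ ρ : ℝ, 0 < ρ ∧ ∀ x ∈ closure Ω, ∀ y ∈ closure Ω, dist y x < ρ →
      ‖ex u y - ex u x‖ < η ∧ ‖ex v y - ex v x‖ < η ∧ |W y - W x| < η := by
    have h1 := Metric.uniformContinuousOn_iff.1
      (hΩc.uniformContinuousOn_of_continuous (ex_cont u)) η hη0
    have h2 := Metric.uniformContinuousOn_iff.1
      (hΩc.uniformContinuousOn_of_continuous (ex_cont v)) η hη0
    have h3 := Metric.uniformContinuousOn_iff.1
      (hΩc.uniformContinuousOn_of_continuous hWc) η hη0
    obtain ⟨r1, a1, b1⟩ := h1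
    obtain ⟨r2, a2, b2⟩ := h2
    obtain ⟨r3, a3, b3⟩ := h3
    refine ⟨min r1 (min r2 r3), lt_min a1 (lt_min a2 a3), fun x hx y hy hxy => ⟨?_, ?_, ?_⟩⟩
    · have := b1 y hy x hx (hxy.trans_le (min_le_left _ _))
      rwa [dist_eq_norm] at this
    · have := b2 y hy x hx (hxy.trans_le ((min_le_right _ _).trans (min_le_left _ _)))
      rwa [dist_eq_norm] at this
    · have := b3 y hy x hx (hxy.trans_le ((min_le_right _ _).trans (min_le_right _ _)))
      rwa [Real.dist_eq] at this
  obtain ⟨ρ, hρ0, hρ⟩ := hunif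
  set K : Set E2 := closure Ω ∩ W ⁻¹' (Ici (M / 2)) with hK
  have hKc : IsCompact K := hΩc.of_isClosed_subset
    (hWc.preimage_isClosed_of_isClosed isClosed_closure isClosed_Ici) Set.inter_subset_left
  have hball : ∀ x ∈ K, ball x ρ ⊆ Ω := by
    intro x hx
    have hxW : M / 2 ≤ W x := hx.2
    have hfr : ∀ y ∈ frontier Ω, W y = 0 := fun y hy => by
      have hy' : y ∈ closure Ω := frontier_subset_closure hy
      rw [hWe y hy']; exact hw0 _ hy
    have hxΩ : x ∈ Ω := by
      by_contra h
      have : x ∈ frontier Ω := by rw [hΩ.frontier_eq]; exact ⟨hx.1, h⟩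
      rw [hfr x this] at hxW
      linarith
    refine ((convex_ball x ρ).isPreconnected).subset_of_closure_inter_subset hΩ
      ⟨x, mem_ball_self hρ0, hxΩ⟩ ?_
    rintro y ⟨hy1, hy2⟩
    by_contra h
    have hyf : y ∈ frontier Ω := by rw [hΩ.frontier_eq]; exact ⟨hy1, h⟩
    have := (hρ x hx.1 y hy1 hy2).2.2
    rw [hfr y hyf] at this
    have := (abs_lt.1 this).1
    linarith
  set ε := ρ / 4 with hε
  have hε0 : 0 < ε := by positivity
  have h2ε : 2 * ε < ρ := by rw [hε]; linarith
  have hin : ∀ x ∈ K, ∀ y, dist y x < ρ → y ∈ closure Ω := fun x hx y hy =>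
    subset_closure (hball x hx hy)
  have hcont2 : ∀ (a : C(closure Ω, S1)) (_ : ∀ x ∈ closure Ω, ∀ y ∈ closure Ω, dist y x < ρ →
      ‖ex a y - ex a x‖ < η), ContinuousOn (fun p : E2 × E2 => DD a p.1 p.2)
        {p | p.1 ∈ closure Ω ∧ p.2 ∈ closure Ω ∧ dist p.2 p.1 < ρ} := by
    intro a ha p hp
    obtain ⟨h1, h2, h3⟩ := hp
    have h4 := ha _ h1 _ h2 h3
    have h5 : ContinuousOn (fun p : E2 × E2 => ex a p.2 - ex a p.1)
        {p | p.1 ∈ closure Ω ∧ p.2 ∈ closure Ω ∧ dist p.2 p.1 < ρ} :=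
      ((ex_cont a).comp continuous_snd.continuousOn (fun z hz => hz.2.1)).sub
        ((ex_cont a).comp continuous_fst.continuousOn (fun z hz => hz.1))
    exact ContinuousAt.comp_continuousWithinAt (g := sm)
      (f := fun p : E2 × E2 => ex a p.2 - ex a p.1) (sm_cont (by linarith)) (h5 p ⟨h1, h2, h3⟩)
  have hU := hcont2 u (fun x hx y hy h => (hρ x hx y hy h).1)
  have hV := hcont2 v (fun x hx y hy h => (hρ x hx y hy h).2.1)
  have hco : ∀ (a : C(closure Ω, S1)) (_ : ∀ x ∈ closure Ω, ∀ y ∈ closure Ω, dist y x < ρ →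
      ‖ex a y - ex a x‖ < η), ∀ x ∈ K, ∀ y ∈ closedBall x ε, ∀ z ∈ closedBall y ε,
      DD a x z = DD a x y + DD a y z := by
    intro a ha x hx y hy z hz
    rw [mem_closedBall] at hy hz
    have hyc := hin x hx y (by linarith)
    have hzc := hin x hx z (by linarith [dist_triangle z y x])
    have h1 := ha x hx.1 y hyc (by linarith)
    have h2 := ha y hyc z hzc (by linarith)
    have h3 : ex a z - ex a x = (ex a y - ex a x) + (ex a z - ex a y) := by abel
    unfold DD
    rw [h3]
    exact sm_add (by linarith)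
  have hH : Data (DD u) (DD v) W K ε M η := by
    refine ⟨hKc, hε0, hη0.le, ?_, ?_, ?_, hWc.mono Set.inter_subset_left, ?_, ?_,
      hco u (fun x hx y hy h => (hρ x hx y hy h).1), hco v (fun x hx y hy h => (hρ x hx y hy h).2.1),
      ?_, ?_, ?_, fun x hx => hMle x hx.1, ⟨xM, ⟨hxM, ?_⟩, rfl⟩, ?_, ?_⟩
    · refine hU.mono ?_
      rintro ⟨x, y⟩ ⟨hx, hy⟩
      simp only [mem_closedBall] at hx hy
      exact ⟨hx.1, hin x hx y (by linarith), by linarith⟩
    · refine hV.mono ?_
      rintro ⟨x, y⟩ ⟨hx, hy⟩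
      simp only [mem_closedBall] at hx hy
      exact ⟨hx.1, hin x hx y (by linarith), by linarith⟩
    · intro x hx
      have := hU.comp (f := fun y : E2 => (x, y)) (s := closedBall x (2 * ε)) (by fun_prop)
        (fun y hy => by
          rw [mem_closedBall] at hy
          exact ⟨hx.1, hin x hx y (by linarith), by show dist y x < ρ; linarith⟩)
      exact this
    · intro x hx; unfold DD; rw [sub_self, sm_zero]
    · intro x hx; unfold DD; rw [sub_self, sm_zero]
    · intro x hx y hy
      rw [mem_closedBall] at hy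
      have hyc := hin x hx y (by linarith)
      obtain ⟨h1, h2, h3⟩ := hρ x hx.1 y hyc (by linarith)
      rw [norm_eq_sm] at h1 h2
      have h4 : ((W y - W x : ℝ) : S1) = ((DD u x y - DD v x y : ℝ) : S1) := by
        unfold DD
        rw [AddCircle.coe_sub, AddCircle.coe_sub, sm_coe, sm_coe, hWe y hyc, hWe x hx.1, hwl, hwl,
          ex_eq u hyc, ex_eq u hx.1, ex_eq v hyc, ex_eq v hx.1]
        abel
      have h5 : |W y - W x| < 1 / 2 := by linarith
      have h6 : |DD u x y - DD v x y| < 1 / 2 := by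
        have := abs_sub (DD u x y) (DD v x y)
        unfold DD at *
        linarith
      rw [← sm_of_real h5, ← sm_of_real h6, h4]
    · intro x hx m hm y hy
      exact slope hΩ hb hu (by linarith) h2ε (hball x hx) (fun z hz => by
        have := (hρ x hx.1 z (hin x hx z hz) hz).1
        linarith) hm y hy
    · intro x hx m hm y hy
      exact slope_neg hΩ hb hv (by linarith) h2ε (hball x hx) (fun z hz => by
        have := (hρ x hx.1 z (hin x hx z hz) hz).2.1
        linarith) hm y hy
    · show M / 2 ≤ W xM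
      linarith
    · intro x hx y hy
      rw [mem_closedBall] at hy
      have hyc := hin x hx y (by linarith)
      obtain ⟨h1, h2, h3⟩ := hρ x hx.1 y hyc (by linarith)
      rw [norm_eq_sm] at h1 h2
      exact ⟨h1.le, h2.le⟩
    · intro x hx hxw y hy
      rw [mem_closedBall] at hy
      have hyc := hin x hx y (by linarith)
      obtain ⟨h1, h2, h3⟩ := hρ x hx.1 y hyc (by linarith)
      refine ⟨hyc, ?_⟩
      show M / 2 ≤ W y
      have := (abs_lt.1 h3).1
      linarith
  exact hH.false

/-- **Uniqueness** of infinity-harmonic circle valued maps on bounded open subsets of the plane. -/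
theorem unique (hΩ : IsOpen Ω) (hb : Bornology.IsBounded Ω) (hu : IsInftyHarmonic Ω u₀ u)
    (hv : IsInftyHarmonic Ω u₀ v) : u = v := by
  obtain ⟨w₁, a1, a2, a3⟩ := lift_infty hb hu
  obtain ⟨w₂, b1, b2, b3⟩ := lift_infty hb hv
  have h1 := le_zero hΩ hb hu hv (w := fun x => w₂ x - w₁ x) (b1.sub a1) (by
    intro x
    rw [AddCircle.coe_sub, a2, b2]; abel) (by
    intro x hx
    rw [a3 x hx, b3 x hx, sub_zero])
  have h2 := le_zero hΩ hb hv hu (w := fun x => w₁ x - w₂ x) (a1.sub b1) (by
    intro x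
    rw [AddCircle.coe_sub, a2, b2]; abel) (by
    intro x hx
    rw [a3 x hx, b3 x hx, sub_zero])
  ext x
  have h3 : w₁ x = w₂ x := by linarith [h1 x, h2 x]
  have h4 : u₀ x - u x = u₀ x - v x := by rw [← a2, ← b2, h3]
  have := sub_right_injective h4
  exact this

end Pool.Agent.H456R3.I
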