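import Pool.Agent.H456R3.I.Defs
set_option autoImplicit false
set_option linter.unusedSectionVars false
set_option linter.unusedVariables false
open MeasureTheory Metric Set Filter Topology Function
open scoped InnerProductSpace Convolution

namespace Pool.Agent.H456R3.I

abbrev Sm : WithTop ℕ∞ := ((⊤ : ℕ∞) : WithTop ℕ∞)

/-- weak gradient on the whole plane -/
def WG (f : E2 → ℝ) (h : E2 → E2) : Prop :=
  ∀ ψ : E2 → ℝ, ContDiff ℝ Sm ψ → HasCompactSupport ψ →
    ∀ e : E2, ∫ y, f y * fderiv ℝ ψ y e = - ∫ y, ⟪h y, e⟫_ℝ * ψ y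

/-- the mollification -/
noncomputable def mo (ρ f : E2 → ℝ) (x : E2) : ℝ := ∫ t, f t * ρ (x - t)

theorem mo_eq (ρ f : E2 → ℝ) : mo ρ f = (f ⋆[ContinuousLinearMap.lsmul ℝ ℝ, volume] ρ) := by
  ext x
  simp only [mo, MeasureTheory.convolution_def, ContinuousLinearMap.lsmul_apply, smul_eq_mul]

theorem mo_eq' (ρ f : E2 → ℝ) (x : E2) :
    mo ρ f x = (ρ ⋆[ContinuousLinearMap.lsmul ℝ ℝ, volume] f) x := by
  rw [MeasureTheory.convolution_lsmul_swap]
  simp only [mo, smul_eq_mul, mul_comm]

theorem mo_smooth {ρ f : E2 → ℝ} (hρ : ContDiff ℝ Sm ρ) (hρc : HasCompactSupport ρ)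
    (hf : Continuous f) : ContDiff ℝ Sm (mo ρ f) := by
  rw [mo_eq]
  exact hρc.contDiff_convolution_right _ hf.locallyIntegrable hρ

theorem mo_fderiv {ρ f : E2 → ℝ} (hρ : ContDiff ℝ Sm ρ) (hρc : HasCompactSupport ρ)
    (hf : Continuous f) (x e : E2) :
    fderiv ℝ (mo ρ f) x e = ∫ t, f t * fderiv ℝ ρ (x - t) e := by
  rw [mo_eq]
  have h1 := hρc.hasFDerivAt_convolution_right (μ := volume) (ContinuousLinearMap.lsmul ℝ ℝ)
    hf.locallyIntegrable (hρ.of_le (by simp)) x
  rw [h1.fderiv]
  rw [MeasureTheory.convolution_precompR_apply _ hf.locallyIntegrable (hρc.fderiv ℝ)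
    (hρ.continuous_fderiv (by simp))]
  simp only [MeasureTheory.convolution_def, ContinuousLinearMap.lsmul_apply, smul_eq_mul]

/-- the derivative of a mollification through the weak gradient -/
theorem mo_fderiv' {ρ f : E2 → ℝ} {h : E2 → E2} (hρ : ContDiff ℝ Sm ρ) (hρc : HasCompactSupport ρ)
    (hf : Continuous f) (hw : WG f h) (x e : E2) :
    fderiv ℝ (mo ρ f) x e = ∫ t, ⟪h t, e⟫_ℝ * ρ (x - t) := by
  rw [mo_fderiv hρ hρc hf]
  have h1 := hw (fun t => ρ (x - t)) (hρ.comp (contDiff_const.sub contDiff_id))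
    (hρc.comp_homeomorph (Homeomorph.subLeft x)) e
  have h2 : ∀ t, fderiv ℝ (fun t => ρ (x - t)) t e = - fderiv ℝ ρ (x - t) e := by
    intro t
    have h3 : HasFDerivAt ρ (fderiv ℝ ρ (x - t)) (x - t) :=
      ((hρ.differentiable (by simp)) _).hasFDerivAt
    have h4 := h3.comp t ((hasFDerivAt_id t).const_sub x)
    have h5 : fderiv ℝ (fun t => ρ (x - t)) t = (fderiv ℝ ρ (x - t)).comp
        (-ContinuousLinearMap.id ℝ E2) := h4.fderiv
    rw [h5]; simp
  simp only [h2, mul_neg] at h1
  rw [integral_neg] at h1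
  linarith

/-- the bump functions -/
noncomputable def bp (n : ℕ) : ContDiffBump (0 : E2) :=
  ⟨1 / (2 * (n + 1)), 1 / (n + 1), by positivity, by
    apply one_div_lt_one_div_of_lt <;> [positivity; nlinarith [Nat.cast_nonneg (α := ℝ) n]]⟩

noncomputable def rho (n : ℕ) : E2 → ℝ := (bp n).normed volume

theorem rho_smooth (n : ℕ) : ContDiff ℝ Sm (rho n) := (bp n).contDiff_normed
theorem rho_cpt (n : ℕ) : HasCompactSupport (rho n) := (bp n).hasCompactSupport_normed
theorem rho_tendsto : Tendsto (fun n => (bp n).rOut) atTop (𝓝 0) := by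
  show Tendsto (fun n : ℕ => 1 / ((n : ℝ) + 1)) atTop (𝓝 0)
  exact tendsto_one_div_add_atTop_nhds_zero_nat

theorem mo_bd (n : ℕ) {f : E2 → ℝ} (hf : AEStronglyMeasurable f volume) {R : ℝ}
    (hR : ∀ x, |f x| ≤ R) (x : E2) : |mo (rho n) f x| ≤ 3 * R := by
  rw [mo_eq']
  have h1 : dist (((bp n).normed volume ⋆[ContinuousLinearMap.lsmul ℝ ℝ, volume] f) x) (f x) ≤
      2 * R := by
    apply ContDiffBump.dist_normed_convolution_le hf
    intro y hy
    rw [Real.dist_eq]
    have := abs_sub (f y) (f x)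
    have := hR y
    have := hR x
    linarith [abs_sub (f y) (f x)]
  rw [Real.dist_eq] at h1
  have h2 := abs_sub_abs_le_abs_sub
    (((bp n).normed volume ⋆[ContinuousLinearMap.lsmul ℝ ℝ, volume] f) x) (f x)
  have h3 := hR x
  unfold rho
  linarith

theorem mo_tendsto {ι : Type*} {l : Filter ι} {N : ι → ℕ} (hN : Tendsto N l atTop)
    {g : ι → E2 → ℝ} {k : ι → E2} {x₀ : E2} {z₀ : ℝ}
    (hig : ∀ᶠ i in l, AEStronglyMeasurable (g i) volume)
    (hcg : Tendsto (uncurry g) (l ×ˢ 𝓝 x₀) (𝓝 z₀)) (hk : Tendsto k l (𝓝 x₀)) :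
    Tendsto (fun i => mo (rho (N i)) (g i) (k i)) l (𝓝 z₀) := by
  have := ContDiffBump.convolution_tendsto_right (μ := volume) (φ := fun i => bp (N i)) (g := g)
    (k := k) (rho_tendsto.comp hN) hig hcg hk
  refine this.congr fun i => ?_
  rw [mo_eq']
  rfl

theorem rho_even (n : ℕ) (x y : E2) : rho n (x - y) = rho n (y - x) := by
  unfold rho
  rw [← ContDiffBump.normed_neg, neg_sub]

theorem rho_cont (n : ℕ) : Continuous (rho n) := (rho_smooth n).continuous

theorem stepA {f : E2 → ℝ} {h : E2 → E2} (hf : Continuous f) (hfc : HasCompactSupport f)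
    (hh : Integrable h) (hw : WG f h) {T : ℝ → ℝ} (hT : ContDiff ℝ Sm T) {ψ : E2 → ℝ}
    (hψ : ContDiff ℝ Sm ψ) (hψc : HasCompactSupport ψ) (e : E2) (n : ℕ) :
    ∫ y, T (mo (rho n) f y) * fderiv ℝ ψ y e =
      - ∫ y, ⟪h y, e⟫_ℝ * mo (rho n) (fun x => deriv T (mo (rho n) f x) * ψ x) y := by
  have hF : ContDiff ℝ Sm (mo (rho n) f) := mo_smooth (rho_smooth n) (rho_cpt n) hf
  have hTF : ContDiff ℝ Sm (fun y => T (mo (rho n) f y)) := hT.comp hF
  have hdT : Continuous (deriv T) := hT.continuous_deriv (by simp)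
  have hd : ∀ y, fderiv ℝ (fun y => T (mo (rho n) f y)) y e =
      deriv T (mo (rho n) f y) * fderiv ℝ (mo (rho n) f) y e := by
    intro y
    have h1 : HasFDerivAt (mo (rho n) f) (fderiv ℝ (mo (rho n) f) y) y :=
      ((hF.differentiable (by simp)) y).hasFDerivAt
    have h2 : HasDerivAt T (deriv T (mo (rho n) f y)) (mo (rho n) f y) :=
      ((hT.differentiable (by simp)) _).hasDerivAt
    have h3 := (h2.comp_hasFDerivAt y h1).fderiv
    have h4 : fderiv ℝ (fun y => T (mo (rho n) f y)) y =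
      deriv T (mo (rho n) f y) • fderiv ℝ (mo (rho n) f) y := h3
    rw [h4]; rfl
  have hψ1 : Continuous (fderiv ℝ ψ) := hψ.continuous_fderiv (by simp)
  have hψe : HasCompactSupport (fun y => fderiv ℝ ψ y e) := hψc.fderiv_apply ℝ e
  have hcF1 : Continuous (fderiv ℝ (fun y => T (mo (rho n) f y))) := hTF.continuous_fderiv (by simp)
  rw [integral_mul_fderiv_eq_neg_fderiv_mul_of_integrable (𝕜 := ℝ)
    (((hcF1.clm_apply continuous_const).mul hψ.continuous).integrable_of_hasCompactSupport
      hψc.mul_left)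
    ((hTF.continuous.mul (hψ1.clm_apply continuous_const)).integrable_of_hasCompactSupport
      hψe.mul_left)
    ((hTF.continuous.mul hψ.continuous).integrable_of_hasCompactSupport hψc.mul_left)
    (fun x _ => (hTF.differentiable (by simp)) x) (fun x _ => (hψ.differentiable (by simp)) x)]
  congr 1
  have e1 : ∀ y, fderiv ℝ (fun y => T (mo (rho n) f y)) y e * ψ y =
      ∫ t, (deriv T (mo (rho n) f y) * ψ y) * (⟪h t, e⟫_ℝ * rho n (y - t)) := by
    intro y
    rw [hd, mo_fderiv' (rho_smooth n) (rho_cpt n) hf hw, integral_const_mul]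
    ring
  simp only [e1]
  have hΨc : Continuous (fun y => deriv T (mo (rho n) f y) * ψ y) :=
    (hdT.comp hF.continuous).mul hψ.continuous
  have hΨi : Integrable (fun y => deriv T (mo (rho n) f y) * ψ y) :=
    hΨc.integrable_of_hasCompactSupport hψc.mul_left
  have hhe : Integrable (fun t => ⟪h t, e⟫_ℝ) := hh.inner_const e
  obtain ⟨C, hC⟩ := (rho_cpt n).exists_bound_of_continuous (rho_cont n)
  have hint : Integrable (uncurry fun y t => (deriv T (mo (rho n) f y) * ψ y) *
      (⟪h t, e⟫_ℝ * rho n (y - t))) (volume.prod volume) := by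
    have h1 : Integrable (fun z : E2 × E2 => (deriv T (mo (rho n) f z.1) * ψ z.1) * ⟪h z.2, e⟫_ℝ)
      (volume.prod volume) := hΨi.mul_prod hhe
    have h2 : Integrable (fun z : E2 × E2 => rho n (z.1 - z.2) *
        ((deriv T (mo (rho n) f z.1) * ψ z.1) * ⟪h z.2, e⟫_ℝ)) (volume.prod volume) := by
      refine h1.bdd_mul (c := C) ?_ ?_
      · exact ((rho_cont n).comp (continuous_fst.sub continuous_snd)).aestronglyMeasurable
      · exact Filter.Eventually.of_forall fun z => hC _
    refine h2.congr (Filter.Eventually.of_forall fun z => ?_)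
    simp only [uncurry]
    ring
  rw [integral_integral_swap hint]
  apply integral_congr_ae
  refine Filter.Eventually.of_forall fun t => ?_
  simp only [mo]
  rw [← integral_const_mul]
  apply integral_congr_ae
  refine Filter.Eventually.of_forall fun y => ?_
  simp only []
  rw [rho_even n t y]
  ring

/-- **Chain rule** for the weak gradient of a continuous function with compact support. -/
theorem WG.comp {f : E2 → ℝ} {h : E2 → E2} (hf : Continuous f) (hfc : HasCompactSupport f)
    (hh : Integrable h) (hw : WG f h) {T : ℝ → ℝ} (hT : ContDiff ℝ Sm T) :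
    WG (fun x => T (f x)) (fun x => deriv T (f x) • h x) := by
  intro ψ hψ hψc e
  have hdT : Continuous (deriv T) := hT.continuous_deriv (by simp)
  obtain ⟨R, hR⟩ := hfc.exists_bound_of_continuous hf
  have hR0 : 0 ≤ R := (norm_nonneg _).trans (hR 0)
  have hFb : ∀ n x, mo (rho n) f x ∈ Icc (-(3 * R)) (3 * R) := by
    intro n x
    exact abs_le.1 (mo_bd n hf.aestronglyMeasurable (fun x => hR x) x)
  obtain ⟨C1, hC1⟩ := isCompact_Icc.exists_bound_of_continuousOn
    (s := Icc (-(3 * R)) (3 * R)) hT.continuous.continuousOn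
  obtain ⟨C2, hC2⟩ := isCompact_Icc.exists_bound_of_continuousOn
    (s := Icc (-(3 * R)) (3 * R)) hdT.continuousOn
  have hψ1 : Continuous (fderiv ℝ ψ) := hψ.continuous_fderiv (by simp)
  have hψe : HasCompactSupport (fun y => fderiv ℝ ψ y e) := hψc.fderiv_apply ℝ e
  have hψec : Continuous (fun y => fderiv ℝ ψ y e) := hψ1.clm_apply continuous_const
  obtain ⟨C3, hC3⟩ := hψc.exists_bound_of_continuous hψ.continuous
  have hhe : Integrable (fun t => ⟪h t, e⟫_ℝ) := hh.inner_const e
  have hFc : ∀ n, Continuous (mo (rho n) f) := fun n =>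
    (mo_smooth (rho_smooth n) (rho_cpt n) hf).continuous
  have hΨc : ∀ n, Continuous (fun y => deriv T (mo (rho n) f y) * ψ y) := fun n =>
    (hdT.comp (hFc n)).mul hψ.continuous
  -- pointwise limits
  have hlimF : ∀ x, Tendsto (fun n => mo (rho n) f x) atTop (𝓝 (f x)) := by
    intro x
    exact mo_tendsto (N := id) tendsto_id (g := fun _ => f) (k := fun _ => x)
      (Filter.Eventually.of_forall fun _ => hf.aestronglyMeasurable)
      ((hf.tendsto x).comp tendsto_snd) tendsto_const_nhds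
  have hlimF2 : ∀ x, Tendsto (uncurry fun n y => mo (rho n) f y) (atTop ×ˢ 𝓝 x) (𝓝 (f x)) := by
    intro x
    exact mo_tendsto (l := atTop ×ˢ 𝓝 x) (N := fun i => i.1) tendsto_fst (g := fun _ => f)
      (k := fun i => i.2)
      (Filter.Eventually.of_forall fun _ => hf.aestronglyMeasurable)
      ((hf.tendsto x).comp tendsto_snd) tendsto_snd
  have hlimK : ∀ x, Tendsto (fun n => mo (rho n) (fun y => deriv T (mo (rho n) f y) * ψ y) x)
      atTop (𝓝 (deriv T (f x) * ψ x)) := by
    intro x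
    refine mo_tendsto (N := id) tendsto_id (g := fun n y => deriv T (mo (rho n) f y) * ψ y)
      (k := fun _ => x) (Filter.Eventually.of_forall fun n => (hΨc n).aestronglyMeasurable)
      ?_ tendsto_const_nhds
    have h1 : Tendsto (fun z : ℕ × E2 => deriv T (mo (rho z.1) f z.2)) (atTop ×ˢ 𝓝 x)
        (𝓝 (deriv T (f x))) := (hdT.tendsto _).comp (hlimF2 x)
    have h2 : Tendsto (fun z : ℕ × E2 => ψ z.2) (atTop ×ˢ 𝓝 x) (𝓝 (ψ x)) :=
      (hψ.continuous.tendsto x).comp tendsto_snd
    exact h1.mul h2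
  have hKb : ∀ n x, |mo (rho n) (fun y => deriv T (mo (rho n) f y) * ψ y) x| ≤ 3 * (C2 * C3) := by
    intro n x
    apply mo_bd n (hΨc n).aestronglyMeasurable
    intro y
    rw [abs_mul]
    have h1 := hC2 _ (hFb n y)
    have h2 := hC3 y
    rw [Real.norm_eq_abs] at h1 h2
    exact mul_le_mul h1 h2 (abs_nonneg _) ((abs_nonneg _).trans h1)
  have L1 : Tendsto (fun n => ∫ y, T (mo (rho n) f y) * fderiv ℝ ψ y e) atTop
      (𝓝 (∫ y, T (f y) * fderiv ℝ ψ y e)) := by
    refine tendsto_integral_of_dominated_convergence (fun y => C1 * |fderiv ℝ ψ y e|) ?_ ?_ ?_ ?_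
    · intro n
      exact ((hT.continuous.comp (hFc n)).mul hψec).aestronglyMeasurable
    · exact (hψec.integrable_of_hasCompactSupport hψe).abs.const_mul C1
    · intro n
      refine Filter.Eventually.of_forall fun y => ?_
      rw [norm_mul]
      exact mul_le_mul_of_nonneg_right (hC1 _ (hFb n y)) (norm_nonneg _)
    · refine Filter.Eventually.of_forall fun y => ?_
      exact ((hT.continuous.tendsto _).comp (hlimF y)).mul_const _
  have L2 : Tendsto (fun n => ∫ y, ⟪h y, e⟫_ℝ *
      mo (rho n) (fun x => deriv T (mo (rho n) f x) * ψ x) y) atTop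
      (𝓝 (∫ y, ⟪h y, e⟫_ℝ * (deriv T (f y) * ψ y))) := by
    refine tendsto_integral_of_dominated_convergence (fun y => |⟪h y, e⟫_ℝ| * (3 * (C2 * C3)))
      ?_ ?_ ?_ ?_
    · intro n
      exact hhe.aestronglyMeasurable.mul (by
        rw [mo_eq]
        exact ((rho_cpt n).continuous_convolution_right _ (hΨc n).locallyIntegrable
          (rho_cont n)).aestronglyMeasurable)
    · exact hhe.abs.mul_const _
    · intro n
      refine Filter.Eventually.of_forall fun y => ?_
      rw [norm_mul]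
      exact mul_le_mul_of_nonneg_left (hKb n y) (norm_nonneg _)
    · refine Filter.Eventually.of_forall fun y => ?_
      exact (hlimK y).const_mul _
  have L3 : Tendsto (fun n => ∫ y, T (mo (rho n) f y) * fderiv ℝ ψ y e) atTop
      (𝓝 (-∫ y, ⟪h y, e⟫_ℝ * (deriv T (f y) * ψ y))) := by
    refine L2.neg.congr fun n => ?_
    rw [stepA hf hfc hh hw hT hψ hψc e n]
  rw [tendsto_nhds_unique L1 L3]
  congr 1
  apply integral_congr_ae
  refine Filter.Eventually.of_forall fun y => ?_
  simp only [real_inner_smul_left]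
  ring

end Pool.Agent.H456R3.I
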